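import Pool.Agent.H57.LBW.Main

/-!
# The count for implicit labels (`CntStmt` of LBW)
-/

set_option autoImplicit false

namespace Pool.LBW

open Finset Real MvPolynomial
open Pool.Agent.H49.Ent Pool.Agent.H32.Dense Pool.STK Pool.KA Pool.KSAT Pool.K3 Pool.PB

/-- **(cnt)** -/
theorem cnt_thm : Pool.S6C.Lbw.CntStmt := by
  intro D
  obtain ⟨C, hC, hmain⟩ := count_main D
  have hlog : 0 < Real.log 2 := Real.log_pos one_lt_two
  have hl5 : 0 ≤ Real.log 5 := Real.log_nonneg (by norm_num)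
  have hl49 : 0 ≤ Real.log 49 := Real.log_nonneg (by norm_num)
  obtain ⟨c, hc⟩ : ∃ c, c = 3 * Real.log 49 + Real.log 5 := ⟨_, rfl⟩
  have hc0 : 0 ≤ c := by rw [hc]; positivity
  refine ⟨C + (3 * D + 40) + c / Real.log 2, by positivity, ?_⟩
  intro J F i₀ i₁ w lam J' Qt P y x h g V zi R P₁ e s hg hgψ hziψ hP1 hP2 hy hQt hQJ hR hx he hrel
    hvis
  have hwJ : w ≤ J := by omega
  have he0 := tm_nonneg F he
  have hx1 : (1 : ℝ) ≤ x := by exact_mod_cast hx
  have hx0 : (0 : ℝ) < x := by linarith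
  have hJ0 : (0 : ℝ) ≤ J := Nat.cast_nonneg J
  have hD0 : (0 : ℝ) ≤ D := Nat.cast_nonneg D
  have hyx : (1 : ℝ) ≤ (y : ℝ) + x + 1 := by
    have : (0 : ℝ) ≤ y := Nat.cast_nonneg y
    linarith
  have hA0 : (0 : ℝ) ≤ (y : ℝ) + x + 1 := by linarith
  obtain ⟨Lb, hLb⟩ : ∃ Lb : ℝ, Lb = (((Qt : ℝ) - w) + 2 * ((Qt : ℝ) - w - lam) - P +
      (C + (3 * D + 40)) * (y + x + 1)) * Real.log 2 + 3 * Real.log 49 +
      (C + (3 * D + 40) + c / Real.log 2) * (e + 1) * (J + 1) / x := ⟨_, rfl⟩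
  have hcle : C * (e + 1) * (J + 1) / x ≤
      (C + (3 * D + 40) + c / Real.log 2) * (e + 1) * (J + 1) / x := by
    refine div_le_div_of_nonneg_right ?_ hx0.le
    have h1 : (0 : ℝ) ≤ ((3 * D + 40) + c / Real.log 2) * (e + 1) * (J + 1) := by positivity
    have h2 : (C + (3 * (D : ℝ) + 40) + c / Real.log 2) * (e + 1) * (J + 1) =
        ((3 * D + 40) + c / Real.log 2) * (e + 1) * (J + 1) + C * (e + 1) * (J + 1) := by ring
    rw [h2]
    linarith
  have hcount : CH (prs F (w - y)) (fun v => F.X Qt v.2)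
      (fun v => ((F.blab w (Box.plkC lam i₀) g v.1, zi v.1), (F.T v.1, F.T v.2, F.Z v.1))) ≤ Lb := by
    by_cases hPE : 9 + D + (2 * D + 2) * (y + x + 1) ≤ P
    · have h1 := hmain J F i₀ i₁ w lam J' Qt P y x h g V zi R P₁ e hg hgψ hziψ hP1 hP2 hy hQt hR hx
        he hPE hrel
      have h2 : (0 : ℝ) ≤ (3 * D + 40) * (y + x + 1) * Real.log 2 := by positivity
      have h3 : (((Qt : ℝ) - w) + 2 * ((Qt : ℝ) - w - lam) - P +
          (C + (3 * D + 40)) * (y + x + 1)) * Real.log 2 = (((Qt : ℝ) - w) +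
          2 * ((Qt : ℝ) - w - lam) - P + C * (y + x + 1)) * Real.log 2 +
          (3 * D + 40) * (y + x + 1) * Real.log 2 := by ring
      rw [hLb, h3]
      linarith
    · push Not at hPE
      have h1 := count_triv F (lam := lam) (Qt := Qt) h hy (i₀ := i₀) hg (by omega)
        (fun v => ((F.blab w (Box.plkC lam i₀) g v.1, zi v.1), (F.T v.1, F.T v.2, F.Z v.1))) (by
          intro v v' _ _ hc
          have e1 := Prod.ext_iff.1 hc
          exact Prod.ext (Prod.ext_iff.1 e1.1).1 (Prod.ext_iff.1 (Prod.ext_iff.1 e1.2).2).1)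
      have h2 : (P : ℝ) ≤ 9 + D + (2 * D + 2) * (y + x + 1) := by
        have h3 : (P : ℝ) ≤ ((9 + D + (2 * D + 2) * (y + x + 1) : ℕ) : ℝ) := by
          exact_mod_cast hPE.le
        push_cast at h3
        exact h3
      have h4 : 6 * (y : ℝ) + 15 + P ≤ (C + (3 * D + 40)) * (y + x + 1) := by
        have h6 : (D : ℝ) * 1 ≤ D * (y + x + 1) := mul_le_mul_of_nonneg_left hyx hD0
        have h7 : 0 ≤ C * (y + x + 1) := by positivity
        have h8 : (0 : ℝ) ≤ x := Nat.cast_nonneg x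
        have h9 : (0 : ℝ) ≤ y := Nat.cast_nonneg y
        nlinarith
      have h5 : 0 ≤ C * (e + 1) * (J + 1) / x := by positivity
      have h6 : (((Qt : ℝ) - w) + 2 * ((Qt : ℝ) - w - lam) + 6 * y + 15) * Real.log 2 ≤
          (((Qt : ℝ) - w) + 2 * ((Qt : ℝ) - w - lam) - P +
          (C + (3 * D + 40)) * (y + x + 1)) * Real.log 2 :=
        mul_le_mul_of_nonneg_right (by linarith) hlog.le
      rw [hLb]
      linarith
  have h1 := boxG Qt F (w := w) (y := y)
    (fun ω => (F.blab w (Box.plkC lam i₀) g ω, zi ω)) hwJ he hvis hcount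
  have h2 : c ≤ c / Real.log 2 * (y + x + 1) * Real.log 2 := by
    have : c / Real.log 2 * (y + x + 1) * Real.log 2 = c * (y + x + 1) := by field_simp
    rw [this]
    nlinarith
  have h3 : (((Qt : ℝ) - w) + 2 * ((Qt : ℝ) - w - lam) - P +
      (C + (3 * D + 40) + c / Real.log 2) * (y + x + 1)) * Real.log 2 = (((Qt : ℝ) - w) +
      2 * ((Qt : ℝ) - w - lam) - P + (C + (3 * D + 40)) * (y + x + 1)) * Real.log 2 +
      c / Real.log 2 * (y + x + 1) * Real.log 2 := by ring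
  rw [h3]
  rw [hLb] at h1
  linarith

end Pool.LBW
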