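import Pool.Agent.H57.LBW.Poly
import Pool.Agent.H82.QQ.XGC

/-!
# The number of cells near an implicit equation

Cells of side `ε` of a box which contain a point at which a polynomial of degree at most `D` is
smaller than `ε` times one of its derivatives: at most `C (2 N + 1) ^ (n - 1)`.
-/

set_option autoImplicit false

namespace Pool.LBW

open Finset Real MvPolynomial

/-- Types: lists of bounded length. -/
theorem exists_types (σ : Type) [Fintype σ] (D : ℕ) :
    ∃ T : Finset (List σ × σ), ∀ L i, L.length ≤ D → (L, i) ∈ T := by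
  classical
  have hfin : {L : List σ | L.length ≤ D}.Finite := List.finite_length_le σ D
  refine ⟨hfin.toFinset ×ˢ Finset.univ, fun L i hL => ?_⟩
  rw [Finset.mem_product]
  exact ⟨by simpa using hL, Finset.mem_univ i⟩

/-- Cells in a symmetric box, counted along one direction. -/
theorem cells_sym {k : ℕ} (i : Fin k) (N M : ℕ) (Z : Finset (Fin k → ℤ))
    (hZ : ∀ n ∈ Z, ∀ l, |n l| ≤ N)
    (hM : ∀ a : Fin k → ℤ, (Z.filter (fun n => Function.update n i 0 = Function.update a i 0)).card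
      ≤ M) : Z.card ≤ M * (2 * N + 1) ^ (k - 1) := by
  classical
  obtain ⟨f, hf⟩ : ∃ f : (Fin k → ℤ) → (Fin k → ℤ),
      f = fun (n : Fin k → ℤ) (l : Fin k) => n l + (N : ℤ) := ⟨_, rfl⟩
  have hinj : Function.Injective f := by
    intro a b h
    funext l
    have := congrFun h l
    rw [hf] at this
    simp only at this
    omega
  have h1 := Pool.QQ.cells_dir i (2 * N) M (Z.image f) (by
    intro n hn l
    obtain ⟨a, ha, rfl⟩ := Finset.mem_image.1 hn
    have := hZ a ha l
    rw [abs_le] at this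
    rw [hf]
    push_cast
    constructor <;> omega) (by
    intro a
    by_cases hex : ∃ n ∈ Z.image f, Function.update n i 0 = a
    · obtain ⟨n, hn, hna⟩ := hex
      obtain ⟨b, hb, rfl⟩ := Finset.mem_image.1 hn
      have h2 : (Z.image f).filter (fun n => Function.update n i 0 = a) ⊆
          (Z.filter (fun n => Function.update n i 0 = Function.update b i 0)).image f := by
        intro n hn
        rw [Finset.mem_filter] at hn
        obtain ⟨c, hc, rfl⟩ := Finset.mem_image.1 hn.1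
        refine Finset.mem_image.2 ⟨c, Finset.mem_filter.2 ⟨hc, ?_⟩, rfl⟩
        have h3 : Function.update (f c) i 0 = Function.update (f b) i 0 := hn.2.trans hna.symm
        funext l
        by_cases hl : l = i
        · subst hl
          simp
        · have h4 := congrFun h3 l
          rw [Function.update_of_ne hl, Function.update_of_ne hl] at h4 ⊢
          rw [hf] at h4
          simp only at h4
          omega
      exact (Finset.card_le_card h2).trans (Finset.card_image_le.trans (hM b))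
    · have h2 : (Z.image f).filter (fun n => Function.update n i 0 = a) = ∅ := by
        rw [Finset.filter_eq_empty_iff]
        intro n hn h3
        exact hex ⟨n, hn, h3⟩
      rw [h2]
      exact Nat.zero_le _)
  rwa [Finset.card_image_of_injective _ hinj] at h1

/-- The cells of one type. -/
theorem cells_type {n D : ℕ} (S : MvPolynomial (Fin n) ℝ) (hS : S.totalDegree ≤ D) (i : Fin n)
    {ε ρ B : ℝ} (hε : 0 < ε) (hρ : 0 < ρ) (hB : (2 * D + 1) * ρ / ε ≤ B) (N : ℕ)
    (Z : Finset (Fin n → ℤ)) (hZ : ∀ k ∈ Z, (∀ l, |k l| ≤ N) ∧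
      eval (fun l => ε * k l) (pderiv i S) ≠ 0 ∧
      |eval (fun l => ε * k l) S| ≤ 2 * ρ * |eval (fun l => ε * k l) (pderiv i S)|) :
    Z.card ≤ D * (⌈2 * B⌉₊ + 1) * (2 * N + 1) ^ (n - 1) := by
  classical
  refine cells_sym i N _ Z (fun k hk => (hZ k hk).1) fun a => ?_
  obtain ⟨P, hP, hPe⟩ := Pool.QQ.restrict_line S i (fun l => ε * a l)
  obtain ⟨C, hC, hnct⟩ := Pool.KPO.nct P D (hP.trans hS)
  -- the coordinate `i` determines the cell
  obtain ⟨Z', hZ'⟩ : ∃ Z', Z' = Z.filter (fun n => Function.update n i 0 = Function.update a i 0) :=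
    ⟨_, rfl⟩
  rw [← hZ']
  have hinj : Set.InjOn (fun k : Fin n → ℤ => k i) Z' := by
    intro k hk k' hk' h
    have h1 : k ∈ Z' := hk
    have h2 : k' ∈ Z' := hk'
    rw [hZ', Finset.mem_filter] at h1 h2
    funext l
    by_cases hl : l = i
    · subst hl
      exact h
    · have h3 := congrFun (h1.2.trans h2.2.symm) l
      rwa [Function.update_of_ne hl, Function.update_of_ne hl] at h3
  rw [← Finset.card_image_of_injOn hinj]
  refine (Pool.QQ.ints_near C (1 / ε) B _ ?_).trans (Nat.mul_le_mul_right _ hC)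
  intro m hm
  obtain ⟨k, hk, rfl⟩ := Finset.mem_image.1 hm
  rw [hZ', Finset.mem_filter] at hk
  obtain ⟨-, h1, h2⟩ := hZ k hk.1
  have hupd : Function.update (fun l => ε * (a l : ℝ)) i (ε * k i) = fun l => ε * (k l : ℝ) := by
    funext l
    by_cases hl : l = i
    · subst hl
      simp
    · rw [Function.update_of_ne hl]
      have h3 := congrFun hk.2 l
      rw [Function.update_of_ne hl, Function.update_of_ne hl] at h3
      rw [h3]
  have e1 := (hPe (ε * k i)).1
  have e2 := (hPe (ε * k i)).2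
  rw [hupd] at e1 e2
  rw [← e2] at h1 h2
  rw [← e1] at h2
  by_contra hcon
  push Not at hcon
  have hr : 0 < (2 * D + 1) * ρ := by positivity
  have h3 : ∀ s ∈ C, (2 * D + 1) * ρ ≤ |ε * k i - s| := by
    intro s hs
    have h4 := hcon s hs
    have h5 : (k i : ℝ) - 1 / ε * s = (ε * k i - s) / ε := by field_simp
    rw [h5, abs_div, abs_of_pos hε] at h4
    have h6 : (2 * D + 1) * ρ / ε < |ε * k i - s| / ε := lt_of_le_of_lt hB h4
    exact (lt_of_mul_lt_mul_right (by rw [div_eq_mul_inv, div_eq_mul_inv] at h6; exact h6)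
      (by positivity)).le
  have h4 := (hnct (ε * k i) (ε * k i) ((2 * D + 1) * ρ) 0 hr le_rfl h3).2
  have h5 : 0 < |P.derivative.eval (ε * k i)| := abs_pos.2 h1
  have h6 : |P.derivative.eval (ε * k i)| ≤ D / ((2 * D + 1) * ρ) *
      (2 * ρ * |P.derivative.eval (ε * k i)|) :=
    h4.trans (mul_le_mul_of_nonneg_left h2 (by positivity))
  have h7 : D / ((2 * D + 1) * ρ) * (2 * ρ * |P.derivative.eval (ε * k i)|) =
      (2 * D) / (2 * D + 1) * |P.derivative.eval (ε * k i)| := by field_simp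
  rw [h7] at h6
  have h8 : (2 * (D : ℝ)) / (2 * D + 1) < 1 := by
    rw [div_lt_one (by positivity)]
    linarith
  have h9 := mul_lt_mul_of_pos_right h8 h5
  linarith

/-- **The number of cells near an implicit equation.** -/
theorem cells_count (n D : ℕ) : ∃ C : ℝ, 1 ≤ C ∧ ∀ (R : MvPolynomial (Fin n) ℝ) (ε : ℝ) (N : ℕ)
    (Z : Finset (Fin n → ℤ)), R.totalDegree ≤ D → 0 < ε →
    (∀ k ∈ Z, (∀ l, |k l| ≤ N) ∧ ∃ (x : Fin n → ℝ) (j : Fin n), (∀ l, k l = ⌊x l / ε⌋) ∧
      eval x (pderiv j R) ≠ 0 ∧ |eval x R| ≤ ε * |eval x (pderiv j R)|) →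
    (Z.card : ℝ) ≤ C * (2 * N + 1) ^ (n - 1) := by
  classical
  obtain ⟨T, hT⟩ := exists_types (Fin n) D
  obtain ⟨M, hM⟩ : ∃ M : ℕ, M = D * (⌈2 * ((2 * (D : ℝ) + 1) * (4 * n))⌉₊ + 1) := ⟨_, rfl⟩
  refine ⟨((T.card * M : ℕ) : ℝ) + 1, ?_, ?_⟩
  · have : (0 : ℝ) ≤ ((T.card * M : ℕ) : ℝ) := Nat.cast_nonneg _
    linarith
  intro R ε N Z hR hε hZ
  rcases Nat.eq_zero_or_pos n with hn | hn
  · subst hn
    have h1 : Z = ∅ := by
      rw [Finset.eq_empty_iff_forall_notMem]
      intro k hk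
      obtain ⟨-, x, j, -⟩ := hZ k hk
      exact j.elim0
    rw [h1, Finset.card_empty]
    push_cast
    positivity
  have hn' : (0 : ℝ) < n := by exact_mod_cast hn
  obtain ⟨ρ, hρd⟩ : ∃ ρ : ℝ, ρ = 4 * n * ε := ⟨_, rfl⟩
  have hρ : 0 < ρ := by rw [hρd]; positivity
  have hn1 : (1 : ℝ) ≤ n := by exact_mod_cast hn
  -- the type of a cell
  have key : ∀ k ∈ Z, ∃ t ∈ T, eval (fun l => ε * (k l : ℝ)) (pderiv t.2 (dl t.1 R)) ≠ 0 ∧
      |eval (fun l => ε * (k l : ℝ)) (dl t.1 R)| ≤
        2 * ρ * |eval (fun l => ε * (k l : ℝ)) (pderiv t.2 (dl t.1 R))| := by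
    intro k hk
    obtain ⟨-, x, j, hx, hj, hRj⟩ := hZ k hk
    have hle : |eval x R| ≤ ρ * |eval x (pderiv j R)| := by
      refine hRj.trans (mul_le_mul_of_nonneg_right ?_ (abs_nonneg _))
      rw [hρd]
      nlinarith
    obtain ⟨L, i, hL, hball⟩ := dom_ball hR hρ hj hle
    refine ⟨(L, i), hT L i hL, hball _ fun l => ?_⟩
    rw [Fintype.card_fin, hρd, hx l]
    have h1 := Int.floor_le (x l / ε)
    have h2 := Int.lt_floor_add_one (x l / ε)
    rw [le_div_iff₀ hε] at h1
    rw [div_lt_iff₀ hε] at h2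
    have h3 : 1 / 4 * (4 * (n : ℝ) * ε) / n = ε := by field_simp
    rw [h3, abs_le]
    constructor <;> nlinarith
  have hsub : Z ⊆ T.biUnion (fun t => Z.filter fun k =>
      eval (fun l => ε * (k l : ℝ)) (pderiv t.2 (dl t.1 R)) ≠ 0 ∧
      |eval (fun l => ε * (k l : ℝ)) (dl t.1 R)| ≤
        2 * ρ * |eval (fun l => ε * (k l : ℝ)) (pderiv t.2 (dl t.1 R))|) := by
    intro k hk
    obtain ⟨t, ht, h⟩ := key k hk
    exact Finset.mem_biUnion.2 ⟨t, ht, Finset.mem_filter.2 ⟨hk, h⟩⟩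
  have hcard : Z.card ≤ T.card * (M * (2 * N + 1) ^ (n - 1)) := by
    refine (Finset.card_le_card hsub).trans (Finset.card_biUnion_le_card_mul _ _ _ fun t _ => ?_)
    rw [hM]
    refine cells_type (dl t.1 R) ((td_dl t.1 R D hR).trans (Nat.sub_le _ _)) t.2 hε hρ ?_ N _ ?_
    · rw [hρd]
      refine le_of_eq ?_
      field_simp
    · intro k hk
      rw [Finset.mem_filter] at hk
      exact ⟨(hZ k hk.1).1, hk.2.1, hk.2.2⟩
  have h1 : (Z.card : ℝ) ≤ ((T.card * M : ℕ) : ℝ) * (2 * N + 1) ^ (n - 1) := by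
    calc (Z.card : ℝ) ≤ ((T.card * (M * (2 * N + 1) ^ (n - 1)) : ℕ) : ℝ) := by exact_mod_cast hcard
      _ = _ := by push_cast; ring
  have h2 : (0 : ℝ) ≤ (2 * (N : ℝ) + 1) ^ (n - 1) := by positivity
  linarith [mul_comm (1 : ℝ) ((2 * (N : ℝ) + 1) ^ (n - 1)), add_mul ((T.card * M : ℕ) : ℝ) 1
    ((2 * (N : ℝ) + 1) ^ (n - 1))]

end Pool.LBW
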