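import Pool.Agent.H57.LBW.Pos
import Pool.Agent.H26.LBW.Stmt

/-!
# The count for implicit labels

`cnt`: Lemma A for labels with an implicit equation in the boxes of the frames.
-/

set_option autoImplicit false

namespace Pool.LBW

open Finset Real
open Pool.Agent.H49.Ent Pool.Agent.H32.Dense Pool.STK Pool.KA Pool.KSAT Pool.K3 Pool.PB

section Fam3

variable {J : ℕ}

/-- The cell of side `2 ^ (-p)` of the second sample, in the box of the first one. -/
noncomputable def kcl (F : Fam 3 J) (w J' : ℕ) (h : w + J' ≤ J) (lam : ℕ) (i₀ : Fin 3)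
    (g : F.Ω → Fin 3 → ℝ) (p : ℕ) (v : F.Ω × F.Ω) (j : Fin 3) : ℤ :=
  ⌊rps F w J' h (Box.plkC lam i₀) g v.1 v.2 j / (1 / 2 ^ p)⌋

/-- The position of the second sample, given its cell and the box. -/
theorem pos_cell (F : Fam 3 J) {w y J' lam Qt p y' : ℕ} (h : w + J' ≤ J) (hy : y ≤ w)
    {i₀ : Fin 3} {g : F.Ω → Fin 3 → ℝ} (hg : ∀ ω, 0 < F.p ω → ∀ j, |g ω j| ≤ 4)
    {c' : ℝ} (hc' : 1 ≤ c') (hdev : 1 / 2 ^ p + (1 + 2 ^ (y + 1)) / 2 ^ J' ≤ c' * 2 ^ y' / 2 ^ p)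
    (hpQ : w + lam + p ≤ Qt) {T : Type} (Wv : F.Ω × F.Ω → T)
    (hdet : Det (prs F (w - y)) Wv (fun v => (kcl F w J' h lam i₀ g p v,
      F.blab w (Box.plkC lam i₀) g v.1, F.T v.2))) :
    CH (prs F (w - y)) (fun v => F.X Qt v.2) Wv ≤
      full Qt (fun i : Fin 3 => if i = 0 then w + p else w + lam + p) +
        (3 : ℕ) * (y' * Real.log 2) + (3 : ℕ) * Real.log (2 * (2 * c' + (3 : ℕ) * 5 + 1) + 1) := by
  classical
  have hQ := prs_law F (w - y)
  obtain ⟨C, hC⟩ : ∃ C : Crd 3 (Fin 3 → ℝ), C = Box.plkC lam i₀ := ⟨_, rfl⟩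
  have hCL : ∀ z x j, C.L z x j = if j = i₀ then x i₀ else 2 ^ lam * (x j - z j * x i₀) := by
    intro z x j
    rw [hC]
    rfl
  -- the base point
  obtain ⟨co, hco⟩ : ∃ co : F.Ω × F.Ω → Fin 3 → ℝ, co = fun v j =>
      ((F.bcl w C g v.1 j : ℝ) + rtm F w v.1 v.2 * F.bvl C g v.1 j +
        kcl F w J' h lam i₀ g p v j * (1 / 2 ^ p)) / 2 ^ w := ⟨_, rfl⟩
  obtain ⟨M, hM⟩ : ∃ M : F.Ω × F.Ω → Fin 3 → Fin 3 → ℝ, M = fun v i j =>
      if j = 0 then (if |g v.1 (Equiv.swap 0 i₀ i)| ≤ 4 then -g v.1 (Equiv.swap 0 i₀ i) else 0)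
      else 0 := ⟨_, rfl⟩
  obtain ⟨xb, hxb⟩ : ∃ xb : F.Ω × F.Ω → Fin 3 → ℝ, xb = fun v i =>
      if i = 0 then co v i₀ else co v (Equiv.swap 0 i₀ i) / 2 ^ lam +
        g v.1 (Equiv.swap 0 i₀ i) * co v i₀ := ⟨_, rfl⟩
  have hdet1 : ∀ v v', 0 < prs F (w - y) v → 0 < prs F (w - y) v' → Wv v = Wv v' →
      co v = co v' ∧ g v.1 = g v'.1 := by
    intro v v' hv hv' e
    have h1 := hdet v v' hv hv' e
    have h2 := Prod.ext_iff.1 h1
    have h3 := Prod.ext_iff.1 h2.2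
    have h4 : F.blab w (Box.plkC lam i₀) g v.1 = F.blab w (Box.plkC lam i₀) g v'.1 := h3.1
    rw [← hC] at h4
    have h5 := Prod.ext_iff.1 (Prod.ext_iff.1 h4).1
    have h6 : F.T1 w v.1 = F.T1 w v'.1 := (Prod.ext_iff.1 h5.1).1
    have h7 : g v.1 = g v'.1 := (Prod.ext_iff.1 h5.1).2
    have h8 : F.bcl w C g v.1 = F.bcl w C g v'.1 := (Prod.ext_iff.1 h5.2).1
    have h9 : F.bvl C g v.1 = F.bvl C g v'.1 := (Prod.ext_iff.1 h5.2).2
    have h10 : kcl F w J' h lam i₀ g p v = kcl F w J' h lam i₀ g p v' := h2.1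
    have h11 : F.T v.2 = F.T v'.2 := h3.2
    refine ⟨?_, h7⟩
    rw [hco]
    funext j
    dsimp only
    rw [h8, h9, h10]
    unfold rtm
    rw [h6, h11]
  refine CH_box hQ Qt (fun v => F.x v.2) (Equiv.swap 0 i₀) (Equiv.swap 0 i₀).surjective Wv M xb
    (fun i : Fin 3 => if i = 0 then w + p else w + lam + p) y' 5 c' ?_ (by norm_num) hc' ?_ ?_ ?_ ?_
  · intro i
    split_ifs
    · omega
    · exact hpQ
  · intro v v' hv hv' e
    obtain ⟨-, h2⟩ := hdet1 v v' hv hv' e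
    rw [hM]
    dsimp only
    rw [h2]
  · intro v v' hv hv' e
    obtain ⟨h1, h2⟩ := hdet1 v v' hv hv' e
    rw [hxb]
    dsimp only
    rw [h1, h2]
  · intro v i j
    rw [hM]
    dsimp only
    split_ifs with h1 h2
    · rw [abs_neg]
      linarith
    · rw [abs_zero]
      norm_num
    · rw [abs_zero]
      norm_num
  · intro v hv i
    obtain ⟨b1, b2, b3, b4, b5, b6⟩ := prs_pos hv
    have hw0 : (0 : ℝ) < 2 ^ w := by positivity
    have hl0 : (0 : ℝ) < 2 ^ lam := by positivity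
    have hp0 : (0 : ℝ) < 2 ^ p := by positivity
    -- the deviation in the coordinates of the box
    have hd : ∀ j, |2 ^ w * C.L (g v.1) (F.x v.2) j - 2 ^ w * co v j| ≤ c' * 2 ^ y' / 2 ^ p := by
      intro j
      have h1 := rps_dev F h hy C g b6 b3 b4 j
      have h2 : |rps F w J' h C g v.1 v.2 j - kcl F w J' h lam i₀ g p v j * (1 / 2 ^ p)| ≤
          1 / 2 ^ p := by
        unfold kcl
        rw [← hC]
        obtain ⟨r, hr⟩ : ∃ r, r = rps F w J' h C g v.1 v.2 j := ⟨_, rfl⟩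
        rw [← hr]
        have a1 := Int.floor_le (r / (1 / 2 ^ p))
        have a2 := Int.lt_floor_add_one (r / (1 / 2 ^ p))
        have hp1 : (0 : ℝ) < 1 / 2 ^ p := by positivity
        rw [le_div_iff₀ hp1] at a1
        rw [div_lt_iff₀ hp1] at a2
        rw [abs_le]
        constructor <;> nlinarith
      have e : 2 ^ w * C.L (g v.1) (F.x v.2) j - 2 ^ w * co v j =
          (2 ^ w * C.L (g v.1) (F.x v.2) j - (F.bcl w C g v.1 j + rtm F w v.1 v.2 *
            F.bvl C g v.1 j + rps F w J' h C g v.1 v.2 j)) +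
          (rps F w J' h C g v.1 v.2 j - kcl F w J' h lam i₀ g p v j * (1 / 2 ^ p)) := by
        rw [hco]
        field_simp
        ring
      rw [e]
      refine (abs_add_le _ _).trans ?_
      linarith
    have hd' : ∀ j, |C.L (g v.1) (F.x v.2) j - co v j| ≤ c' * 2 ^ y' / 2 ^ (w + p) := by
      intro j
      have h1 := hd j
      rw [← mul_sub, abs_mul, abs_of_pos hw0] at h1
      rw [pow_add, ← div_div, div_right_comm, le_div_iff₀ hw0, mul_comm]
      exact h1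
    have hg1 := hg v.1 b1
    by_cases hi : i = 0
    · subst hi
      have hs : ∀ f : Fin 3 → ℝ, ∑ j : Fin 3, (if j < 0 then f j else 0) = 0 := fun f =>
        Finset.sum_eq_zero fun j _ => by rw [if_neg (by simp)]
      rw [hs, add_zero]
      have h1 := hd' i₀
      rw [hCL, if_pos rfl] at h1
      rw [hxb]
      simp only [if_true, Equiv.swap_apply_left]
      exact h1
    · have hs : ∀ f : Fin 3 → ℝ, (∀ j, j ≠ 0 → f j = 0) →
          ∑ j : Fin 3, (if j < i then f j else 0) = f 0 := by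
        intro f hf
        rw [Finset.sum_eq_single 0]
        · rw [if_pos (Fin.pos_of_ne_zero hi)]
        · intro j _ hj
          rw [hf j hj]
          simp
        · intro h0
          exact absurd (Finset.mem_univ _) h0
      rw [hs]
      · have hne : Equiv.swap 0 i₀ i ≠ i₀ := by
          intro h0
          have h1 : Equiv.swap 0 i₀ (Equiv.swap 0 i₀ i) = Equiv.swap 0 i₀ i₀ := by rw [h0]
          rw [Equiv.swap_apply_self, Equiv.swap_apply_right] at h1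
          exact hi h1
        have h1 := hd' (Equiv.swap 0 i₀ i)
        rw [hCL, if_neg hne] at h1
        rw [hxb, hM]
        simp only [if_true, if_neg hi, if_pos (hg1 (Equiv.swap 0 i₀ i)), Equiv.swap_apply_left]
        have e : F.x v.2 (Equiv.swap 0 i₀ i) - (co v (Equiv.swap 0 i₀ i) / 2 ^ lam +
            g v.1 (Equiv.swap 0 i₀ i) * co v i₀) + -g v.1 (Equiv.swap 0 i₀ i) *
            (F.x v.2 i₀ - co v i₀) = (2 ^ lam * (F.x v.2 (Equiv.swap 0 i₀ i) -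
            g v.1 (Equiv.swap 0 i₀ i) * F.x v.2 i₀) - co v (Equiv.swap 0 i₀ i)) / 2 ^ lam := by
          field_simp
          ring
        rw [e, abs_div, abs_of_pos hl0, div_le_iff₀ hl0]
        refine h1.trans (le_of_eq ?_)
        have e2 : w + lam + p = (w + p) + lam := by ring
        rw [e2, pow_add (2 : ℝ) (w + p) lam]
        field_simp
      · intro j hj
        rw [hM]
        dsimp only
        rw [if_neg hj, zero_mul]

/-- The cells lie in a box. -/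
theorem kcl_le (F : Fam 3 J) {w y J' lam p : ℕ} (h : w + J' ≤ J) (hy : y ≤ w) {i₀ : Fin 3}
    {g : F.Ω → Fin 3 → ℝ} {v : F.Ω × F.Ω} (hv : 0 < prs F (w - y) v) (l : Fin 3) :
    |kcl F w J' h lam i₀ g p v l| ≤ ((2 ^ (y + p + 3) : ℕ) : ℤ) := by
  obtain ⟨b1, b2, b3, b4, b5, b6⟩ := prs_pos hv
  have h1 := rps_le F h hy (Box.plkC lam i₀) g b6 l
  unfold kcl
  obtain ⟨r, hr⟩ : ∃ r, r = rps F w J' h (Box.plkC lam i₀) g v.1 v.2 l := ⟨_, rfl⟩
  rw [← hr] at h1 ⊢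
  have e : r / (1 / 2 ^ p) = r * 2 ^ p := by field_simp
  rw [e]
  have h2 : |r * 2 ^ p| ≤ 2 ^ (y + p + 2) := by
    rw [abs_mul, abs_of_pos (by positivity : (0 : ℝ) < 2 ^ p)]
    calc |r| * 2 ^ p ≤ 2 ^ (y + 2) * 2 ^ p := mul_le_mul_of_nonneg_right h1 (by positivity)
      _ = 2 ^ (y + p + 2) := by rw [← pow_add]; congr 1; ring
  rw [abs_le] at h2
  have h3 : (1 : ℝ) ≤ 2 ^ (y + p + 2) := one_le_pow₀ (by norm_num)
  have h4 : ((2 : ℝ) ^ (y + p + 3)) = 2 * 2 ^ (y + p + 2) := by rw [pow_succ]; ring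
  have f1 := Int.floor_le (r * 2 ^ p)
  have f2 := Int.lt_floor_add_one (r * 2 ^ p)
  rw [abs_le]
  constructor
  · have h5 : (-((2 ^ (y + p + 3) : ℕ) : ℤ) : ℝ) ≤ (⌊r * 2 ^ p⌋ : ℝ) := by
      push_cast
      rw [h4]
      linarith [h2.1]
    exact_mod_cast h5
  · have h5 : (⌊r * 2 ^ p⌋ : ℝ) ≤ (((2 ^ (y + p + 3) : ℕ) : ℤ) : ℝ) := by
      push_cast
      rw [h4]
      linarith [h2.2]
    exact_mod_cast h5

/-- The box of cells. -/
noncomputable def bxc (N : ℕ) : Finset (Fin 3 → ℤ) := Fintype.piFinset fun _ => Finset.Icc (-(N : ℤ)) N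

theorem mem_bxc {N : ℕ} {k : Fin 3 → ℤ} : k ∈ bxc N ↔ ∀ l, |k l| ≤ N := by
  unfold bxc
  rw [Fintype.mem_piFinset]
  simp only [Finset.mem_Icc, abs_le]

theorem card_bxc (N : ℕ) : (bxc N).card = (2 * N + 1) ^ 3 := by
  unfold bxc
  rw [Fintype.card_piFinset, Finset.prod_const, Finset.card_univ, Fintype.card_fin, Int.card_Icc]
  congr 1
  omega

theorem log_N (q : ℕ) : Real.log (2 * ((2 ^ (q + 3) : ℕ) : ℝ) + 1) ≤ (q + 5) * Real.log 2 ∧
    0 ≤ Real.log (2 * ((2 ^ (q + 3) : ℕ) : ℝ) + 1) := by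
  have h1 : (1 : ℝ) ≤ ((2 ^ (q + 3) : ℕ) : ℝ) := by
    push_cast
    exact one_le_pow₀ (by norm_num)
  refine ⟨?_, Real.log_nonneg (by linarith)⟩
  have h2 : 2 * ((2 ^ (q + 3) : ℕ) : ℝ) + 1 ≤ 2 ^ (q + 5) := by
    push_cast at h1 ⊢
    have : (2 : ℝ) ^ (q + 5) = 4 * 2 ^ (q + 3) := by
      rw [show q + 5 = (q + 3) + 2 by ring, pow_add]
      ring
    rw [this]
    linarith
  have h3 := Real.log_le_log (by positivity) h2
  rw [Real.log_pow] at h3
  push_cast at h3 ⊢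
  exact h3

theorem full_eq (Qt a b : ℕ) : full Qt (fun i : Fin 3 => if i = 0 then a else b) =
    ((Qt : ℝ) - a) * Real.log 2 + 2 * (((Qt : ℝ) - b) * Real.log 2) := by
  unfold full
  rw [Fin.sum_univ_three]
  simp only [if_true, show ¬ ((1 : Fin 3) = 0) by decide, show ¬ ((2 : Fin 3) = 0) by decide,
    if_false]
  ring

/-- The trivial count. -/
theorem count_triv (F : Fam 3 J) {w y J' lam Qt : ℕ} (h : w + J' ≤ J) (hy : y ≤ w)
    {i₀ : Fin 3} {g : F.Ω → Fin 3 → ℝ} (hg : ∀ ω, 0 < F.p ω → ∀ j, |g ω j| ≤ 4)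
    (hpQ : w + lam ≤ Qt) {T : Type} (Wv : F.Ω × F.Ω → T)
    (hdet : Det (prs F (w - y)) Wv (fun v => (F.blab w (Box.plkC lam i₀) g v.1, F.T v.2))) :
    CH (prs F (w - y)) (fun v => F.X Qt v.2) Wv ≤
      (((Qt : ℝ) - w) + 2 * ((Qt : ℝ) - w - lam) + 6 * y + 15) * Real.log 2 +
        3 * Real.log 49 := by
  classical
  have hQ := prs_law F (w - y)
  have h1 := CH_le_add hQ.nonneg (fun v : F.Ω × F.Ω => F.X Qt v.2)
    (fun v => kcl F w J' h lam i₀ g 0 v) Wv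
  have h2 := CH_le_card hQ.nonneg hQ.sum_one (fun v => kcl F w J' h lam i₀ g 0 v) Wv
    (fun _ => bxc (2 ^ (y + 0 + 3))) (fun v hv => mem_bxc.2 fun l => kcl_le F h hy hv l)
  rw [Ex_const hQ.sum_one, card_bxc] at h2
  push_cast at h2
  rw [Real.log_pow] at h2
  push_cast at h2
  have h3 := (log_N (y + 0)).1
  push_cast at h3
  have h4 := pos_cell F (p := 0) (y' := y) (c' := 4) (Qt := Qt) h hy hg (by norm_num) (by
    have a1 : (1 : ℝ) ≤ 2 ^ y := one_le_pow₀ (by norm_num)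
    have a2 : (1 : ℝ) ≤ 2 ^ J' := one_le_pow₀ (by norm_num)
    have a3 : (1 + (2 : ℝ) ^ (y + 1)) / 2 ^ J' ≤ 1 + 2 ^ (y + 1) :=
      div_le_self (by positivity) a2
    have a4 : (2 : ℝ) ^ (y + 1) = 2 * 2 ^ y := by rw [pow_succ]; ring
    rw [pow_zero, div_one, div_one]
    rw [a4] at a3 ⊢
    linarith) hpQ
    (fun v => (kcl F w J' h lam i₀ g 0 v, Wv v)) (by
      intro v v' hv hv' e
      have e1 := Prod.ext_iff.1 e
      have e2 := Prod.ext_iff.1 (hdet v v' hv hv' e1.2)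
      exact Prod.ext e1.1 (Prod.ext e2.1 e2.2))
  rw [full_eq] at h4
  push_cast at h4 h3
  have h5 : (2 : ℝ) * (2 * 4 + 3 * 5 + 1) + 1 = 49 := by norm_num
  rw [h5] at h4
  have hlog : 0 < Real.log 2 := Real.log_pos one_lt_two
  linarith

end Fam3

end Pool.LBW
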