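import Pool.Agent.H57.LBW.Cell

/-!
# Implicit equations along a line

The restriction of a space-time polynomial to a line and to a time; an implicit equation at one
time of a line holds at most other times.
-/

set_option autoImplicit false

namespace Pool.LBW

open Finset Real MvPolynomial

section Restrict

variable {σ : Type} [Fintype σ]

/-- The restriction to a line. -/
noncomputable def lnp (a b : σ → ℝ) (R : MvPolynomial σ ℝ) : Polynomial ℝ :=
  aeval (fun o => Polynomial.C (a o) + Polynomial.X * Polynomial.C (b o)) R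

omit [Fintype σ] in
theorem lnp_eval (a b : σ → ℝ) (R : MvPolynomial σ ℝ) (s : ℝ) :
    (lnp a b R).eval s = eval (fun o => a o + s * b o) R := by
  unfold lnp
  induction R using MvPolynomial.induction_on with
  | C r => simp
  | add p q hp hq => rw [map_add, Polynomial.eval_add, hp, hq, map_add]
  | mul_X p i hp =>
    rw [map_mul, Polynomial.eval_mul, hp, aeval_X, map_mul, eval_X, Polynomial.eval_add,
      Polynomial.eval_C, Polynomial.eval_mul, Polynomial.eval_X, Polynomial.eval_C]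

omit [Fintype σ] in
theorem lnp_deg (a b : σ → ℝ) (R : MvPolynomial σ ℝ) : (lnp a b R).natDegree ≤ R.totalDegree := by
  unfold lnp
  rw [aeval_def, eval₂_eq]
  refine Polynomial.natDegree_sum_le_of_forall_le _ _ fun m hm => ?_
  refine (Polynomial.natDegree_mul_le).trans ?_
  have h1 : (algebraMap ℝ (Polynomial ℝ) (coeff m R)).natDegree = 0 := by
    rw [Polynomial.algebraMap_apply]
    exact Polynomial.natDegree_C _
  rw [h1, zero_add]
  refine (Polynomial.natDegree_prod_le _ _).trans ?_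
  have h2 : ∀ l ∈ m.support, ((Polynomial.C (a l) + Polynomial.X * Polynomial.C (b l)) ^
      m l).natDegree ≤ m l := by
    intro l _
    refine (Polynomial.natDegree_pow_le).trans ?_
    have h3 : (Polynomial.C (a l) + Polynomial.X * Polynomial.C (b l)).natDegree ≤ 1 := by
      refine (Polynomial.natDegree_add_le _ _).trans (max_le ?_ ?_)
      · rw [Polynomial.natDegree_C]
        exact Nat.zero_le 1
      · refine Polynomial.natDegree_mul_le.trans ?_
        rw [Polynomial.natDegree_C, Polynomial.natDegree_X]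
    nlinarith
  exact (Finset.sum_le_sum h2).trans (le_totalDegree hm)

theorem lnp_der [DecidableEq σ] (a b : σ → ℝ) (R : MvPolynomial σ ℝ) (s : ℝ) :
    (lnp a b R).derivative.eval s = ∑ o, b o * eval (fun o => a o + s * b o) (pderiv o R) := by
  have h1 := (lnp a b R).hasDerivAt s
  have h2 := hasDerivAt_line R a b s
  have h3 : (fun x : ℝ => (lnp a b R).eval x) = fun x : ℝ => eval (fun i => a i + x * b i) R :=
    funext fun x => lnp_eval a b R x
  rw [h3] at h1
  exact h1.unique h2

end Restrict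

section Time

variable {m : ℕ}

/-- The space-time point: `i₁` is the time, `none` the passive coordinate. -/
def stp (i₁ : Fin m) (t : ℝ) (x : Fin m → ℝ) (o : Option (Fin m)) : ℝ :=
  o.elim (x i₁) (fun j => if j = i₁ then t else x j)

/-- The variable of a coordinate of the space. -/
def vrb (i₁ l : Fin m) : Option (Fin m) := if l = i₁ then none else some l

theorem stp_line (i₁ : Fin m) (s : ℝ) (u d : Fin m → ℝ) :
    (fun o => stp i₁ 0 u o + s * stp i₁ 1 d o) = stp i₁ s (fun j => u j + s * d j) := by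
  funext o
  cases o with
  | none => rfl
  | some j =>
    simp only [stp, Option.elim]
    split_ifs
    · ring
    · rfl

/-- A polynomial at a fixed time. -/
noncomputable def tfx (i₁ : Fin m) (t : ℝ) (R : MvPolynomial (Option (Fin m)) ℝ) :
    MvPolynomial (Fin m) ℝ :=
  aeval (fun o : Option (Fin m) => o.elim (X i₁ : MvPolynomial (Fin m) ℝ)
    (fun j => if j = i₁ then C t else X j)) R

theorem tfx_eval (i₁ : Fin m) (t : ℝ) (R : MvPolynomial (Option (Fin m)) ℝ) (x : Fin m → ℝ) :
    eval x (tfx i₁ t R) = eval (stp i₁ t x) R := by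
  unfold tfx
  induction R using MvPolynomial.induction_on with
  | C r => simp
  | add p q hp hq => rw [map_add, map_add, hp, hq, map_add]
  | mul_X p i hp =>
    rw [map_mul, map_mul, hp, aeval_X, map_mul, eval_X]
    congr 1
    cases i with
    | none => simp [stp]
    | some j =>
      simp only [stp, Option.elim]
      split_ifs
      · simp
      · simp

theorem tfx_pderiv (i₁ : Fin m) (t : ℝ) (R : MvPolynomial (Option (Fin m)) ℝ) (l : Fin m) :
    pderiv l (tfx i₁ t R) = tfx i₁ t (pderiv (vrb i₁ l) R) := by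
  classical
  unfold tfx
  induction R using MvPolynomial.induction_on with
  | C r => simp
  | add p q hp hq => rw [map_add, map_add, hp, hq, map_add, map_add]
  | mul_X p i hp =>
    rw [map_mul, aeval_X, pderiv_mul, hp, pderiv_mul, map_add, map_mul, map_mul, aeval_X]
    congr 2
    cases i with
    | none =>
      simp only [Option.elim, vrb]
      by_cases hl : l = i₁
      · subst hl
        rw [if_pos rfl, pderiv_X_self, pderiv_X_self, map_one]
      · rw [if_neg hl, pderiv_X_of_ne (fun h => hl h.symm), pderiv_X_of_ne (by simp), map_zero]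
    | some j =>
      simp only [Option.elim, vrb]
      by_cases hj : j = i₁
      · subst hj
        rw [if_pos rfl, pderiv_C]
        by_cases hl : l = j
        · rw [if_pos hl, pderiv_X_of_ne (by simp), map_zero]
        · rw [if_neg hl, pderiv_X_of_ne (fun h => hl (Option.some.inj h).symm), map_zero]
      · rw [if_neg hj]
        by_cases hl : l = i₁
        · rw [if_pos hl, pderiv_X_of_ne (fun h => hj (h.trans hl)), pderiv_X_of_ne (by simp),
            map_zero]
        · rw [if_neg hl]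
          by_cases hlj : l = j
          · subst hlj
            rw [pderiv_X_self, pderiv_X_self, map_one]
          · rw [pderiv_X_of_ne (fun h => hlj h.symm),
              pderiv_X_of_ne (fun h => hlj (Option.some.inj h).symm), map_zero]

theorem tfx_deg (i₁ : Fin m) (t : ℝ) (R : MvPolynomial (Option (Fin m)) ℝ) :
    (tfx i₁ t R).totalDegree ≤ R.totalDegree := by
  unfold tfx
  rw [aeval_def, eval₂_eq]
  refine (totalDegree_finsetSum _ _).trans (Finset.sup_le fun s hs => ?_)
  refine (totalDegree_mul _ _).trans ?_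
  have h1 : (algebraMap ℝ (MvPolynomial (Fin m) ℝ) (coeff s R)).totalDegree = 0 := by
    rw [algebraMap_eq, totalDegree_C]
  rw [h1, zero_add]
  refine (totalDegree_finsetProd _ _).trans ?_
  have h2 : ∀ o ∈ s.support, ((o.elim (X i₁ : MvPolynomial (Fin m) ℝ)
      (fun j => if j = i₁ then C t else X j)) ^ s o).totalDegree ≤ s o := by
    intro o _
    refine (totalDegree_pow _ _).trans ?_
    have h3 : (o.elim (X i₁ : MvPolynomial (Fin m) ℝ)
        (fun j => if j = i₁ then C t else X j)).totalDegree ≤ 1 := by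
      cases o with
      | none => simp
      | some j =>
        simp only [Option.elim]
        split_ifs
        · rw [totalDegree_C]
          exact Nat.zero_le 1
        · rw [totalDegree_X]
    nlinarith
  exact (Finset.sum_le_sum h2).trans (le_totalDegree hs)

end Time

/-- **From one time to another.** -/
theorem time_step {D : ℕ} {p q : Polynomial ℝ} {Sp Sq : Finset ℝ}
    (hp : ∀ (T t r κ : ℝ), 0 < r → 0 ≤ κ → (∀ s ∈ Sp, r ≤ |T - s|) →
      (|t - T| ≤ κ * r → |p.eval t - p.eval T| ≤ ((1 + κ) ^ D - 1) * |p.eval T|) ∧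
      |p.derivative.eval T| ≤ D / r * |p.eval T|)
    (hq : ∀ (T t r κ : ℝ), 0 < r → 0 ≤ κ → (∀ s ∈ Sq, r ≤ |T - s|) →
      (|t - T| ≤ κ * r → |q.eval t - q.eval T| ≤ ((1 + κ) ^ D - 1) * |q.eval T|) ∧
      |q.derivative.eval T| ≤ D / r * |q.eval T|)
    {s₁ s₂ δ L ρ : ℝ} (hδ : 0 < δ) (hL : 0 ≤ L) (hρ : 0 ≤ ρ) (h12 : |s₂ - s₁| ≤ L)
    (h1 : ∀ s ∈ Sp, δ ≤ |s₁ - s|) (h2 : ∀ s ∈ Sp, δ ≤ |s₂ - s|) (h3 : ∀ s ∈ Sq, δ ≤ |s₂ - s|)
    (h0 : |p.eval s₁| ≤ ρ * |q.eval s₁|) (hne : q.eval s₁ ≠ 0) :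
    q.eval s₂ ≠ 0 ∧ |p.eval s₂| ≤ (1 + L / δ) ^ (2 * D) * ρ * |q.eval s₂| ∧
      |p.derivative.eval s₂| ≤ D / δ * |p.eval s₂| := by
  have hκ : 0 ≤ L / δ := by positivity
  have hκL : L / δ * δ = L := by field_simp
  obtain ⟨A, hA⟩ : ∃ A, A = (1 + L / δ) ^ D := ⟨_, rfl⟩
  have hA0 : 0 < A := by rw [hA]; positivity
  have a1 := (hp s₁ s₂ δ (L / δ) hδ hκ h1).1 (by rw [hκL]; exact h12)
  have a2 := (hq s₂ s₁ δ (L / δ) hδ hκ h3).1 (by rw [hκL, abs_sub_comm]; exact h12)
  rw [← hA] at a1 a2
  have a3 : |p.eval s₂| ≤ A * |p.eval s₁| := by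
    have := abs_add_le (p.eval s₂ - p.eval s₁) (p.eval s₁)
    rw [sub_add_cancel] at this
    linarith
  have a4 : |q.eval s₁| ≤ A * |q.eval s₂| := by
    have := abs_add_le (q.eval s₁ - q.eval s₂) (q.eval s₂)
    rw [sub_add_cancel] at this
    linarith
  refine ⟨?_, ?_, (hp s₂ s₂ δ 0 hδ le_rfl h2).2⟩
  · intro h
    rw [h, abs_zero, mul_zero] at a4
    exact hne (abs_eq_zero.1 (le_antisymm a4 (abs_nonneg _)))
  · have e : (1 + L / δ) ^ (2 * D) = A * A := by
      rw [hA, ← pow_add]
      congr 1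
      ring
    rw [e]
    calc |p.eval s₂| ≤ A * |p.eval s₁| := a3
      _ ≤ A * (ρ * |q.eval s₁|) := mul_le_mul_of_nonneg_left h0 hA0.le
      _ ≤ A * (ρ * (A * |q.eval s₂|)) :=
          mul_le_mul_of_nonneg_left (mul_le_mul_of_nonneg_left a4 hρ) hA0.le
      _ = A * A * ρ * |q.eval s₂| := by ring

section Step

variable {m : ℕ}

theorem exists_vrb {i₁ : Fin m} {o : Option (Fin m)} (ho : o ≠ some i₁) : ∃ l, o = vrb i₁ l := by
  cases o with
  | none => exact ⟨i₁, by unfold vrb; rw [if_pos rfl]⟩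
  | some j =>
    refine ⟨j, ?_⟩
    unfold vrb
    rw [if_neg]
    intro h
    exact ho (by rw [h])

/-- From the grid point of a sample to the line. -/
theorem grid_step {D : ℕ} {R : MvPolynomial (Option (Fin m)) ℝ} (hR : R.totalDegree ≤ D)
    (i₁ : Fin m) (u d : Fin m → ℝ) {x₀ : Option (Fin m) → ℝ} {s₁ ρ₀ : ℝ} (hρ : 0 < ρ₀)
    (hx : ∀ o, |stp i₁ s₁ (fun j => u j + s₁ * d j) o - x₀ o| ≤ ρ₀)
    (h1 : eval x₀ (pderiv none R) ≠ 0) (h2 : |eval x₀ R| ≤ ρ₀ * |eval x₀ (pderiv none R)|) :
    ∃ (L : List (Option (Fin m))) (i : Option (Fin m)), L.length ≤ D ∧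
      (lnp (stp i₁ 0 u) (stp i₁ 1 d) (pderiv i (dl L R))).eval s₁ ≠ 0 ∧
      |(lnp (stp i₁ 0 u) (stp i₁ 1 d) (dl L R)).eval s₁| ≤ 8 * (m + 1) * ρ₀ *
        |(lnp (stp i₁ 0 u) (stp i₁ 1 d) (pderiv i (dl L R))).eval s₁| := by
  have hm : (0 : ℝ) ≤ m := Nat.cast_nonneg m
  obtain ⟨ρ, hρd⟩ : ∃ ρ, ρ = 4 * (m + 1) * ρ₀ := ⟨_, rfl⟩
  have hρ' : 0 < ρ := by rw [hρd]; positivity
  obtain ⟨L, i, hL, hball⟩ := dom_ball hR hρ' h1 (h2.trans (mul_le_mul_of_nonneg_right (by
    rw [hρd]
    nlinarith) (abs_nonneg _)))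
  refine ⟨L, i, hL, ?_⟩
  have h3 := hball (stp i₁ s₁ (fun j => u j + s₁ * d j)) (fun o => by
    refine (hx o).trans (le_of_eq ?_)
    rw [hρd, Fintype.card_option, Fintype.card_fin]
    push_cast
    field_simp)
  rw [lnp_eval, lnp_eval, stp_line]
  refine ⟨h3.1, h3.2.trans (le_of_eq ?_)⟩
  rw [hρd]
  ring

/-- A time at which the equation holds in one of the coordinates of the space. -/
theorem space_step {D : ℕ} (S : MvPolynomial (Option (Fin m)) ℝ) (i₁ : Fin m) (u d : Fin m → ℝ)
    (hd : ∀ j, |d j| ≤ 1) (i : Option (Fin m)) {s₂ δ ρ : ℝ} (hδ : 0 < δ) (hρ : 0 ≤ ρ)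
    (hsm : D / δ * ρ ≤ 1 / 2)
    (h1 : (lnp (stp i₁ 0 u) (stp i₁ 1 d) (pderiv i S)).eval s₂ ≠ 0)
    (h2 : |(lnp (stp i₁ 0 u) (stp i₁ 1 d) S).eval s₂| ≤ ρ *
      |(lnp (stp i₁ 0 u) (stp i₁ 1 d) (pderiv i S)).eval s₂|)
    (h3 : |(lnp (stp i₁ 0 u) (stp i₁ 1 d) S).derivative.eval s₂| ≤ D / δ *
      |(lnp (stp i₁ 0 u) (stp i₁ 1 d) S).eval s₂|) :
    ∃ l : Fin m, eval (fun j => u j + s₂ * d j) (pderiv l (tfx i₁ s₂ S)) ≠ 0 ∧
      |eval (fun j => u j + s₂ * d j) (tfx i₁ s₂ S)| ≤ 2 * m * ρ *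
        |eval (fun j => u j + s₂ * d j) (pderiv l (tfx i₁ s₂ S))| := by
  classical
  have hm : 0 < m := i₁.pos
  have hm1 : (1 : ℝ) ≤ m := by exact_mod_cast hm
  have hm0 : (0 : ℝ) < m := by linarith
  rw [lnp_eval, stp_line] at h1
  rw [lnp_eval, lnp_eval, stp_line] at h2
  rw [lnp_der, lnp_eval] at h3
  simp only [stp_line] at h3
  obtain ⟨x, hx⟩ : ∃ x : Fin m → ℝ, x = fun j => u j + s₂ * d j := ⟨_, rfl⟩
  rw [← hx] at h1 h2 h3 ⊢
  obtain ⟨f, hf⟩ : ∃ f : Option (Fin m) → ℝ, f = fun o => eval (stp i₁ s₂ x) (pderiv o S) :=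
    ⟨_, rfl⟩
  have hfo : ∀ o, eval (stp i₁ s₂ x) (pderiv o S) = f o := fun o => by rw [hf]
  simp only [hfo] at h1 h2 h3
  have hfl : ∀ l, eval x (pderiv l (tfx i₁ s₂ S)) = f (vrb i₁ l) := by
    intro l
    rw [tfx_pderiv, tfx_eval, hfo]
  simp only [hfl, tfx_eval]
  have hq0 : 0 < |f i| := abs_pos.2 h1
  by_cases hi : i = some i₁
  · -- the time
    subst hi
    have h4 : |∑ o, stp i₁ 1 d o * f o| ≤ 1 / 2 * |f (some i₁)| := by
      refine h3.trans ?_
      calc D / δ * |eval (stp i₁ s₂ x) S| ≤ D / δ * (ρ * |f (some i₁)|) :=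
            mul_le_mul_of_nonneg_left h2 (by positivity)
        _ = D / δ * ρ * |f (some i₁)| := by ring
        _ ≤ 1 / 2 * |f (some i₁)| := mul_le_mul_of_nonneg_right hsm (abs_nonneg _)
    have h5 : ∑ o, stp i₁ 1 d o * f o = f (some i₁) +
        ∑ o ∈ Finset.univ.erase (some i₁), stp i₁ 1 d o * f o := by
      rw [← Finset.add_sum_erase _ _ (Finset.mem_univ (some i₁))]
      congr 1
      simp [stp]
    rw [h5] at h4
    by_contra hcon
    push Not at hcon
    have h6 : ∀ l, 2 * m * |f (vrb i₁ l)| < |f (some i₁)| := by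
      intro l
      by_cases h0 : f (vrb i₁ l) = 0
      · rw [h0, abs_zero, mul_zero]
        exact hq0
      · have h7 := hcon l h0
        have h8 := lt_of_lt_of_le h7 h2
        have h9 : ρ * (2 * m * |f (vrb i₁ l)|) < ρ * |f (some i₁)| := by linarith
        exact lt_of_mul_lt_mul_left h9 hρ
    have h7 : |∑ o ∈ Finset.univ.erase (some i₁), stp i₁ 1 d o * f o| ≤
        ∑ _o ∈ (Finset.univ : Finset (Option (Fin m))).erase (some i₁),
          1 / (2 * m) * |f (some i₁)| := by
      refine (Finset.abs_sum_le_sum_abs _ _).trans (Finset.sum_le_sum fun o ho => ?_)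
      obtain ⟨l, rfl⟩ := exists_vrb (i₁ := i₁) (Finset.ne_of_mem_erase ho)
      have h8 : |stp i₁ 1 d (vrb i₁ l)| ≤ 1 := by
        unfold vrb
        by_cases hl : l = i₁
        · rw [if_pos hl]
          exact hd i₁
        · rw [if_neg hl]
          simp only [stp, Option.elim, if_neg hl]
          exact hd l
      rw [abs_mul]
      have h9 := (h6 l).le
      calc |stp i₁ 1 d (vrb i₁ l)| * |f (vrb i₁ l)| ≤ 1 * |f (vrb i₁ l)| :=
            mul_le_mul_of_nonneg_right h8 (abs_nonneg _)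
        _ ≤ 1 / (2 * m) * |f (some i₁)| := by
            rw [one_mul, div_mul_eq_mul_div, le_div_iff₀ (by positivity)]
            linarith
    rw [Finset.sum_const, Finset.card_erase_of_mem (Finset.mem_univ _), Finset.card_univ,
      Fintype.card_option, Fintype.card_fin, Nat.add_sub_cancel, nsmul_eq_mul] at h7
    have h8 : (m : ℝ) * (1 / (2 * m) * |f (some i₁)|) = 1 / 2 * |f (some i₁)| := by
      field_simp
    rw [h8] at h7
    -- one of the inequalities is strict
    have h9 : |∑ o ∈ Finset.univ.erase (some i₁), stp i₁ 1 d o * f o| < 1 / 2 * |f (some i₁)| := by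
      have h10 : |∑ o ∈ Finset.univ.erase (some i₁), stp i₁ 1 d o * f o| <
          ∑ _o ∈ (Finset.univ : Finset (Option (Fin m))).erase (some i₁),
            1 / (2 * m) * |f (some i₁)| := by
        refine lt_of_le_of_lt (Finset.abs_sum_le_sum_abs _ _) ?_
        refine Finset.sum_lt_sum_of_nonempty ⟨none, ?_⟩ ?_
        · rw [Finset.mem_erase]
          exact ⟨by simp, Finset.mem_univ _⟩
        · intro o ho
          obtain ⟨l, rfl⟩ := exists_vrb (i₁ := i₁) (Finset.ne_of_mem_erase ho)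
          have h11 : |stp i₁ 1 d (vrb i₁ l)| ≤ 1 := by
            unfold vrb
            by_cases hl : l = i₁
            · rw [if_pos hl]
              exact hd i₁
            · rw [if_neg hl]
              simp only [stp, Option.elim, if_neg hl]
              exact hd l
          rw [abs_mul]
          have h12 := h6 l
          calc |stp i₁ 1 d (vrb i₁ l)| * |f (vrb i₁ l)| ≤ 1 * |f (vrb i₁ l)| :=
                mul_le_mul_of_nonneg_right h11 (abs_nonneg _)
            _ < 1 / (2 * m) * |f (some i₁)| := by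
                rw [one_mul, div_mul_eq_mul_div, lt_div_iff₀ (by positivity)]
                linarith
      rw [Finset.sum_const, Finset.card_erase_of_mem (Finset.mem_univ _), Finset.card_univ,
        Fintype.card_option, Fintype.card_fin, Nat.add_sub_cancel, nsmul_eq_mul, h8] at h10
      exact h10
    have h10 := abs_sub_abs_le_abs_sub (f (some i₁))
      (-∑ o ∈ Finset.univ.erase (some i₁), stp i₁ 1 d o * f o)
    rw [sub_neg_eq_add, abs_neg] at h10
    linarith
  · obtain ⟨l, hl⟩ := exists_vrb (i₁ := i₁) hi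
    refine ⟨l, by rw [← hl]; exact h1, ?_⟩
    rw [← hl]
    refine h2.trans (mul_le_mul_of_nonneg_right ?_ (abs_nonneg _))
    nlinarith

end Step

end Pool.LBW
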