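import Pool.Agent.H57.LBW.Cnt

/-!
# The count for implicit labels: the main case
-/

set_option autoImplicit false

namespace Pool.LBW

open Finset Real
open Pool.Agent.H49.Ent Pool.Agent.H32.Dense Pool.STK Pool.KA Pool.KSAT Pool.K3 Pool.PB

section Aux

variable {m J : ℕ}

theorem near_iff (F : Fam m J) {w x : ℕ} (hx : x ≤ J - w) (a b : F.Ω) (s : ℝ) :
    |rtm F w a b - s| < 1 / 2 ^ x ↔
      |(F.T b : ℝ) - 2 ^ (J - w) * ((F.T1 w a : ℝ) + s)| < 2 ^ (J - w - x) := by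
  have h0 : (0 : ℝ) < 2 ^ (J - w) := by positivity
  have e : rtm F w a b - s = ((F.T b : ℝ) - 2 ^ (J - w) * ((F.T1 w a : ℝ) + s)) / 2 ^ (J - w) := by
    unfold rtm
    field_simp
    ring
  have e2 : (1 : ℝ) / 2 ^ x = 2 ^ (J - w - x) / 2 ^ (J - w) := by
    have h1 : (2 : ℝ) ^ (J - w) = 2 ^ (J - w - x) * 2 ^ x := by
      rw [← pow_add]
      congr 1
      omega
    rw [h1]
    field_simp
  rw [e, e2, abs_div, abs_of_pos h0, div_lt_div_iff_of_pos_right h0]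

theorem T_mem (F : Fam m J) (w : ℕ) (ω : F.Ω) :
    F.T ω ∈ Finset.Ico (F.T1 w ω * 2 ^ (J - w)) ((F.T1 w ω + 1) * 2 ^ (J - w)) := by
  rw [Finset.mem_Ico]
  unfold Fam.T1
  constructor
  · exact Nat.div_mul_le_self _ _
  · rw [← Nat.div_lt_iff_lt_mul (by positivity)]
    exact Nat.lt_succ_self _

theorem CH_T_slam (F : Fam m J) {w : ℕ} (hw : w ≤ J) {e : ℝ} (he : F.Tm e) :
    ((J - w : ℕ) : ℝ) * Real.log 2 - e ≤ CH F.p F.T (slam F w) := by
  have e3 := time_digits F (w := w) (K := J - w) (by omega) he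
  refine e3.trans (CH_mono_left F.isLaw.nonneg fun ω ω' _ _ h => ?_)
  have h1 : F.T ω = F.T ω' := (Prod.ext_iff.mp h).1
  unfold Fam.T1
  rw [h1]

theorem tm_nonneg (F : Fam m J) {e : ℝ} (he : F.Tm e) : 0 ≤ e := by
  have h1 := CH_T_slam F (w := 0) (Nat.zero_le J) he
  have h2 : CH F.p F.T (slam F 0) ≤ J * Real.log 2 := by
    have h3 := CH_le_card F.isLaw.nonneg F.isLaw.sum_one F.T (slam F 0)
      (fun _ => Finset.range (2 ^ J)) (fun ω _ => Finset.mem_range.2 (F.tim ω))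
    rw [Finset.card_range, Ex_const F.isLaw.sum_one] at h3
    push_cast at h3
    rwa [Real.log_pow] at h3
  rw [Nat.sub_zero] at h1
  linarith only [h1, h2]

/-- The time of the second sample, given the first sample. -/
theorem prs_T2 (F : Fam m J) (w : ℕ) :
    CH (prs F w) (fun v => F.T v.2) (fun v => (v.1, slam F w v.2)) = CH F.p F.T (slam F w) := by
  obtain ⟨hQ, hf, hs, -, hpos, hind⟩ := cpy_thm F.Ω _ F.p F.isLaw (slam F w)
  have h1 : CH (prs F w) (fun v => F.T v.1) (fun v => (v.2, slam F w v.1)) =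
      CH F.p F.T (slam F w) := hind ℕ F.Ω F.T id
  rw [← h1]
  exact ((prs_swap F w).CH (fun v : F.Ω × F.Ω => F.T v.1) (fun v => (v.2, slam F w v.1)))

end Aux

theorem fin_arith {L c₀ c₂ A e J x Dr τl Cl l41 p P E y Qt w lam lN Pb X₁ X₂ X₃ X₄ X₅ : ℝ}
    (hL : 0 < L) (hc₀0 : 0 ≤ c₀) (hc₂0 : 0 ≤ c₂) (hA : 1 ≤ A) (he : 0 ≤ e) (hJ : 0 ≤ J)
    (hx : 0 < x) (hD : 0 ≤ Dr) (hc₀ : c₀ = τl + L + Cl + 3 * l41) (hp : p = P - E)
    (hE : E + 2 * y + 10 ≤ (3 * Dr + 23) * A) (hlN : lN ≤ (y + p + 5) * L)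
    (hPb : 3 * lN * Pb ≤ 30 * c₂ * (e + 1) * (J + 1) / x)
    (c1 : X₁ ≤ X₂ + X₃) (c2 : X₃ ≤ X₄ + X₅) (c3 : X₂ ≤ τl + L)
    (c4 : X₄ ≤ Cl + 2 * lN + 3 * lN * Pb)
    (c5 : X₅ ≤ (Qt - (w + p)) * L + 2 * ((Qt - (w + lam + p)) * L) + 3 * l41) :
    X₁ ≤ (Qt - w + 2 * (Qt - w - lam) - P + (c₀ / L + (3 * Dr + 23) + 30 * c₂) * A) * L +
      (c₀ / L + (3 * Dr + 23) + 30 * c₂) * (e + 1) * (J + 1) / x := by
  have d5 : c₀ ≤ c₀ / L * A * L := by
    have : c₀ / L * A * L = c₀ * A := by field_simp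
    rw [this]
    nlinarith only [hc₀0, hA]
  have d6 : 30 * c₂ * (e + 1) * (J + 1) / x ≤
      (c₀ / L + (3 * Dr + 23) + 30 * c₂) * (e + 1) * (J + 1) / x := by
    refine div_le_div_of_nonneg_right ?_ hx.le
    have h6 : 0 ≤ c₀ / L + (3 * Dr + 23) := by positivity
    have h7 : 0 ≤ (c₀ / L + (3 * Dr + 23)) * (e + 1) * (J + 1) := by positivity
    have h8 : (c₀ / L + (3 * Dr + 23) + 30 * c₂) * (e + 1) * (J + 1) =
        (c₀ / L + (3 * Dr + 23)) * (e + 1) * (J + 1) + 30 * c₂ * (e + 1) * (J + 1) := by ring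
    rw [h8]
    linarith only [h7]
  have d8 : 0 ≤ 30 * c₂ * A * L := by positivity
  have d9 : (E + 2 * y + 10) * L ≤ (3 * Dr + 23) * A * L := mul_le_mul_of_nonneg_right hE hL.le
  have g : (Qt - w + 2 * (Qt - w - lam) - P + (c₀ / L + (3 * Dr + 23) + 30 * c₂) * A) * L =
      (Qt - w + 2 * (Qt - w - lam) - P) * L + c₀ / L * A * L + (3 * Dr + 23) * A * L +
      30 * c₂ * A * L := by ring
  rw [g]
  have s1 : X₁ ≤ c₀ + 2 * lN + 3 * lN * Pb + (Qt - (w + p)) * L +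
      2 * ((Qt - (w + lam + p)) * L) := by linarith only [hc₀, c1, c2, c3, c4, c5]
  have s2 : (Qt - (w + p)) * L + 2 * ((Qt - (w + lam + p)) * L) + 2 * ((y + p + 5) * L) =
      (Qt - w + 2 * (Qt - w - lam) - P) * L + (E + 2 * y + 10) * L := by
    rw [hp]
    ring
  linarith only [hc₀, hlN, hPb, c1, c2, c3, c4, c5, d5, d6, d8, d9, s2]

open Classical in
/-- **The count, main case.** -/
theorem count_main (D : ℕ) : ∃ C : ℝ, 0 ≤ C ∧ ∀ (J : ℕ) (F : Fam 3 J) (i₀ i₁ : Fin 3)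
    (w lam J' Qt P y x : ℕ) (h : w + J' ≤ J) (g : F.Ω → Fin 3 → ℝ) (V : Type) (zi : F.Ω → V)
    (R : V → MvPolynomial (Option (Fin 3)) ℝ) (P₁ : ℕ) (e : ℝ),
    (∀ ω, 0 < F.p ω → ∀ j, |g ω j| ≤ 4) →
    (∃ ψ : ((Fin 3 → ℝ) × (Fin 3 → ℝ)) × F.ζ × ℕ → Fin 3 → ℝ, ∀ ω, 0 < F.p ω →
      g ω = ψ (slam F w ω)) →
    (∃ ψ : ((Fin 3 → ℝ) × (Fin 3 → ℝ)) × F.ζ × ℕ → V, ∀ ω, 0 < F.p ω → zi ω = ψ (slam F w ω)) →
    P ≤ P₁ → P₁ ≤ J' → y ≤ w → w + lam + J' ≤ Qt → (∀ v, (R v).totalDegree ≤ D) →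
    1 ≤ x → F.Tm e → 9 + D + (2 * D + 2) * (y + x + 1) ≤ P →
    (∀ ω, 0 < F.p ω → MvPolynomial.eval (txg (Fam.zm F w J' h (Box.plkC lam i₀) g) i₁ P₁ ω)
        (MvPolynomial.pderiv none (R (zi ω))) ≠ 0 ∧
      |MvPolynomial.eval (txg (Fam.zm F w J' h (Box.plkC lam i₀) g) i₁ P₁ ω) (R (zi ω))| ≤
        1 / 2 ^ P * |MvPolynomial.eval (txg (Fam.zm F w J' h (Box.plkC lam i₀) g) i₁ P₁ ω)
          (MvPolynomial.pderiv none (R (zi ω)))|) →
    CH (prs F (w - y)) (fun v => F.X Qt v.2) (fun v => ((F.blab w (Box.plkC lam i₀) g v.1, zi v.1),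
      (F.T v.1, F.T v.2, F.Z v.1))) ≤
      (((Qt : ℝ) - w) + 2 * ((Qt : ℝ) - w - lam) - P + C * (y + x + 1)) * Real.log 2 +
      C * (e + 1) * (J + 1) / x := by
  choose n T hn hcen using fun i₁ : Fin 3 => exists_centers (m := 3) D i₁
  obtain ⟨C₁, hC₁, hcells⟩ := cells_count 3 D
  have hlog : 0 < Real.log 2 := Real.log_pos one_lt_two
  have hlog1 : Real.log 2 ≤ 1 := by
    have := Real.log_two_lt_d9
    linarith only [hlog, this]
  obtain ⟨τ₀, hτ₀⟩ : ∃ τ₀ : ℕ, τ₀ = ∑ i, (T i).card + 1 := ⟨_, rfl⟩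
  obtain ⟨n₀, hn₀⟩ : ∃ n₀ : ℕ, n₀ = ∑ i, n i := ⟨_, rfl⟩
  have hτi : ∀ i, (T i).card ≤ τ₀ := by
    intro i
    have := Finset.single_le_sum (f := fun i => (T i).card) (fun _ _ => Nat.zero_le _)
      (Finset.mem_univ i)
    rw [hτ₀]
    exact this.trans (Nat.le_succ _)
  have hni : ∀ i, n i ≤ n₀ := by
    intro i
    rw [hn₀]
    exact Finset.single_le_sum (f := fun i => n i) (fun _ _ => Nat.zero_le _)
      (Finset.mem_univ i)
  have hn₀1 : 1 ≤ n₀ := (hn 0).trans (hni 0)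
  have hτ₀1 : 1 ≤ τ₀ := by rw [hτ₀]; omega
  have hl1 : 0 ≤ Real.log τ₀ := Real.log_nonneg (by exact_mod_cast hτ₀1)
  have hl2 : 0 ≤ Real.log C₁ := Real.log_nonneg hC₁
  have hl3 : 0 ≤ Real.log 41 := Real.log_nonneg (by norm_num)
  have hn₀r : (1 : ℝ) ≤ n₀ := by exact_mod_cast hn₀1
  have hl4 : 0 ≤ Real.log (3 * n₀) := Real.log_nonneg (by linarith only [hn₀r])
  obtain ⟨c₀, hc₀⟩ : ∃ c₀, c₀ = Real.log τ₀ + Real.log 2 + Real.log C₁ + 3 * Real.log 41 :=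
    ⟨_, rfl⟩
  have hc₀0 : 0 ≤ c₀ := by rw [hc₀]; positivity
  obtain ⟨c₂, hc₂⟩ : ∃ c₂, c₂ = (1 + Real.log 2 + Real.log (3 * n₀)) / Real.log 2 := ⟨_, rfl⟩
  have hc₂0 : 0 ≤ c₂ := by rw [hc₂]; positivity
  refine ⟨c₀ / Real.log 2 + (3 * D + 23) + 30 * c₂, by positivity, ?_⟩
  intro J F i₀ i₁ w lam J' Qt P y x h g V zi R P₁ e hg hgψ hziψ hP1 hP2 hy hQt hR hx he hPE hrel
  have hQ := prs_law F (w - y)
  have h0 := hQ.nonneg
  have hwJ : w ≤ J := by omega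
  have he0 := tm_nonneg F he
  have hx1 : (1 : ℝ) ≤ x := by exact_mod_cast hx
  -- the precision of the cells
  obtain ⟨E, hE⟩ : ∃ E, E = 9 + D + (2 * D + 2) * (y + x + 1) := ⟨_, rfl⟩
  rw [← hE] at hPE
  obtain ⟨p, hp⟩ : ∃ p, p = P - E := ⟨_, rfl⟩
  have hpP : p + E = P := by omega
  have hexp : 2 * D * (y + x + 1) + (y + x + 1) + (y + x + 1) = (2 * D + 2) * (y + x + 1) := by ring
  have hyE : y + 2 ≤ E := by
    have : y + x + 1 ≤ (2 * D + 2) * (y + x + 1) := by rw [← hexp]; omega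
    omega
  have hxE : x ≤ E := by
    have : y + x + 1 ≤ (2 * D + 2) * (y + x + 1) := by rw [← hexp]; omega
    omega
  have hxK : x ≤ J - w := by omega
  -- the zoom
  obtain ⟨ψg, hψg⟩ := hgψ
  obtain ⟨ψz, hψz⟩ := hziψ
  choose cen hcenc hcenL using hcen i₁
  obtain ⟨Cc, hCc⟩ : ∃ Cc : F.Ω → Finset ℝ, Cc = fun ω => cen (R (zi ω))
    ((F.zm w J' h (Box.plkC lam i₀) g).u ω) ((F.zm w J' h (Box.plkC lam i₀) g).d ω) (hR _)
    ((F.zm w J' h (Box.plkC lam i₀) g).dir ω) := ⟨_, rfl⟩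
  have hcong : ∀ (R R' : MvPolynomial (Option (Fin 3)) ℝ) (u u' d d' : Fin 3 → ℝ)
      (a1 : R.totalDegree ≤ D) (a2 : ∀ j, |d j| ≤ 1) (b1 : R'.totalDegree ≤ D)
      (b2 : ∀ j, |d' j| ≤ 1), R = R' → u = u' → d = d' → cen R u d a1 a2 = cen R' u' d' b1 b2 := by
    intro R R' u u' d d' a1 a2 b1 b2 e1 e2 e3
    subst e1 e2 e3
    rfl
  have hCcn : ∀ ω, (Cc ω).card ≤ n i₁ := by
    intro ω
    rw [hCc]
    exact hcenc _ _ _ _ _
  have hCcdet : ∀ ω ω', 0 < F.p ω → 0 < F.p ω' → slam F w ω = slam F w ω' → Cc ω = Cc ω' := by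
    intro ω ω' hω hω' hs
    have e1 : g ω = g ω' := by rw [hψg ω hω, hψg ω' hω', hs]
    have e2 : zi ω = zi ω' := by rw [hψz ω hω, hψz ω' hω', hs]
    have s1 := Prod.ext_iff.1 hs
    have s2 := Prod.ext_iff.1 s1.2
    have e3 : F.l ω = F.l ω' := s1.1
    have e4 : F.T1 w ω = F.T1 w ω' := s2.2
    have e5 : F.Z ω = F.Z ω' := s2.1
    have e6 := (Box.blab_det F (C := Box.plkC lam i₀) e3 e4 e1 e5).2
    have e7 : (F.box w (Box.plkC lam i₀) g).u ω = (F.box w (Box.plkC lam i₀) g).u ω' :=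
      (Prod.ext_iff.1 e6).1
    have e8 : (F.box w (Box.plkC lam i₀) g).d ω = (F.box w (Box.plkC lam i₀) g).d ω' :=
      (Prod.ext_iff.1 e6).2
    rw [hCc]
    refine hcong _ _ _ _ _ _ _ _ _ _ (by rw [e2]) ?_ ?_
    · funext j
      change (⌊(2 : ℝ) ^ J' * (F.box w (Box.plkC lam i₀) g).u ω j⌋ : ℝ) / 2 ^ J' =
        (⌊(2 : ℝ) ^ J' * (F.box w (Box.plkC lam i₀) g).u ω' j⌋ : ℝ) / 2 ^ J'
      rw [e7]
    · funext j
      change (⌊(2 : ℝ) ^ J' * (F.box w (Box.plkC lam i₀) g).d ω j⌋ : ℝ) / 2 ^ J' =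
        (⌊(2 : ℝ) ^ J' * (F.box w (Box.plkC lam i₀) g).d ω' j⌋ : ℝ) / 2 ^ J'
      rw [e8]
  -- the types
  obtain ⟨ε, hε⟩ : ∃ ε : ℝ, ε = 1 / 2 ^ p := ⟨_, rfl⟩
  have hε0 : 0 < ε := by rw [hε]; positivity
  have hP0 : (0 : ℝ) < 2 ^ P := by positivity
  have hpow : ((1 : ℝ) + 2 ^ y / (1 / 2 ^ x)) ^ (2 * D) ≤ 2 ^ (2 * D * (y + x + 1)) := by
    have h1 : (1 : ℝ) + 2 ^ y / (1 / 2 ^ x) ≤ 2 ^ (y + x + 1) := by
      have h2 : (2 : ℝ) ^ y / (1 / 2 ^ x) = 2 ^ (y + x) := by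
        rw [pow_add]
        field_simp
      have h3 : (1 : ℝ) ≤ 2 ^ (y + x) := one_le_pow₀ (by norm_num)
      rw [h2, pow_succ]
      linarith only [h3]
    calc _ ≤ ((2 : ℝ) ^ (y + x + 1)) ^ (2 * D) := pow_le_pow_left₀ (by positivity) h1 _
      _ = 2 ^ (2 * D * (y + x + 1)) := by
          rw [← pow_mul]
          congr 1
          ring
  have hmain : ((1 : ℝ) + 2 ^ y / (1 / 2 ^ x)) ^ (2 * D) * (8 * ((3 : ℕ) + 1) * (2 / 2 ^ P)) ≤
      2 ^ (2 * D * (y + x + 1) + 6) / 2 ^ P := by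
    have h1 : (8 : ℝ) * ((3 : ℕ) + 1) * (2 / 2 ^ P) = 64 / 2 ^ P := by
      push_cast
      ring
    rw [h1, pow_add]
    calc _ ≤ 2 ^ (2 * D * (y + x + 1)) * (64 / 2 ^ P) :=
          mul_le_mul_of_nonneg_right hpow (by positivity)
      _ = _ := by ring
  have hty : ∀ ω, ∃ L, 0 < F.p ω → L ∈ T i₁ ∧ ∀ s₂ : ℝ, |s₂ - rtm F w ω ω| ≤ 2 ^ y →
      (∀ s ∈ Cc ω, 1 / 2 ^ x ≤ |rtm F w ω ω - s|) → (∀ s ∈ Cc ω, 1 / 2 ^ x ≤ |s₂ - s|) →
      ∃ l : Fin 3, MvPolynomial.eval (fun j => (F.zm w J' h (Box.plkC lam i₀) g).u ω j + s₂ *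
          (F.zm w J' h (Box.plkC lam i₀) g).d ω j)
          (MvPolynomial.pderiv l (tfx i₁ s₂ (dl L (R (zi ω))))) ≠ 0 ∧
        |MvPolynomial.eval (fun j => (F.zm w J' h (Box.plkC lam i₀) g).u ω j + s₂ *
          (F.zm w J' h (Box.plkC lam i₀) g).d ω j) (tfx i₁ s₂ (dl L (R (zi ω))))| ≤
          ε * |MvPolynomial.eval (fun j => (F.zm w J' h (Box.plkC lam i₀) g).u ω j + s₂ *
          (F.zm w J' h (Box.plkC lam i₀) g).d ω j)
            (MvPolynomial.pderiv l (tfx i₁ s₂ (dl L (R (zi ω)))))| := by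
    intro ω
    by_cases hω : 0 < F.p ω
    · obtain ⟨r1, r2⟩ := hrel ω hω
      obtain ⟨L, hLT, hL⟩ := hcenL (R (zi ω)) ((F.zm w J' h (Box.plkC lam i₀) g).u ω)
        ((F.zm w J' h (Box.plkC lam i₀) g).d ω) (hR _) ((F.zm w J' h (Box.plkC lam i₀) g).dir ω)
        (txg (Fam.zm F w J' h (Box.plkC lam i₀) g) i₁ P₁ ω) (rtm F w ω ω) (2 / 2 ^ P)
        (by positivity) (grid_near F h hP1 hP2 (Box.plkC lam i₀) g i₁ ω) r1 (by
          refine r2.trans (mul_le_mul_of_nonneg_right ?_ (abs_nonneg _))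
          refine div_le_div_of_nonneg_right (by norm_num) hP0.le)
      refine ⟨L, fun _ => ⟨hLT, fun s₂ hs hb1 hb2 => ?_⟩⟩
      rw [hCc] at hb1 hb2
      obtain ⟨l, hl1, hl2⟩ := hL s₂ (1 / 2 ^ x) (2 ^ y) (by positivity) (by positivity) hs hb1 hb2 (by
        have h1 : (D : ℝ) ≤ 2 ^ D := by exact_mod_cast Nat.lt_two_pow_self.le
        have h2 : (D : ℝ) / (1 / 2 ^ x) ≤ 2 ^ (D + x) := by
          rw [pow_add]
          have : (D : ℝ) / (1 / 2 ^ x) = D * 2 ^ x := by field_simp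
          rw [this]
          exact mul_le_mul_of_nonneg_right h1 (by positivity)
        calc _ ≤ 2 ^ (D + x) * (2 ^ (2 * D * (y + x + 1) + 6) / 2 ^ P) :=
              mul_le_mul h2 hmain (by positivity) (by positivity)
          _ = 2 ^ (D + x + (2 * D * (y + x + 1) + 6)) / 2 ^ P := by
              rw [pow_add (2 : ℝ) (D + x)]
              ring
          _ ≤ 1 / 2 := by
              rw [div_le_div_iff₀ hP0 (by norm_num), ← pow_succ, one_mul]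
              refine pow_le_pow_right₀ (by norm_num) ?_
              rw [← hexp] at hE
              omega)
      refine ⟨l, hl1, hl2.trans (mul_le_mul_of_nonneg_right ?_ (abs_nonneg _))⟩
      have h3 : (2 : ℝ) * (3 : ℕ) * ((1 + 2 ^ y / (1 / 2 ^ x)) ^ (2 * D) *
          (8 * ((3 : ℕ) + 1) * (2 / 2 ^ P))) ≤ 2 ^ 3 * (2 ^ (2 * D * (y + x + 1) + 6) / 2 ^ P) :=
        mul_le_mul (by push_cast; norm_num) hmain (by positivity) (by positivity)
      refine h3.trans ?_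
      rw [hε, ← mul_div_assoc, ← pow_add, div_le_div_iff₀ hP0 (by positivity), one_mul, ← pow_add]
      refine pow_le_pow_right₀ (by norm_num) ?_
      rw [← hexp] at hE
      omega
    · exact ⟨[], fun h1 => absurd h1 hω⟩
  choose Lt hLt using hty
  -- bad pairs
  obtain ⟨bad, hbad⟩ : ∃ bad : F.Ω × F.Ω → Prop, bad = fun v =>
      (∃ s ∈ Cc v.1, |rtm F w v.1 v.1 - s| < 1 / 2 ^ x) ∨
      (∃ s ∈ Cc v.1, |rtm F w v.1 v.2 - s| < 1 / 2 ^ x) := ⟨_, rfl⟩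
  obtain ⟨Pb, hPb⟩ : ∃ Pb, Pb = Ex (prs F (w - y)) (fun v => if bad v then (1 : ℝ) else 0) :=
    ⟨_, rfl⟩
  have hPb0 : 0 ≤ Pb := by
    rw [hPb]
    refine Ex_nonneg h0 fun v _ => ?_
    split_ifs <;> norm_num
  have hn3 : Real.log (3 * (n i₁ : ℝ)) ≤ Real.log (3 * n₀) := by
    have h1 : (1 : ℝ) ≤ n i₁ := by exact_mod_cast hn i₁
    have h2 : (n i₁ : ℝ) ≤ n₀ := by exact_mod_cast hni i₁
    exact Real.log_le_log (by linarith only [h1]) (by linarith only [h2])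
  have hPbx : Pb * x ≤ 2 * (c₂ * (e + 1)) := by
    have t1 := time_ev hQ (fun v : F.Ω × F.Ω => F.T v.1) (fun v => slam F w v.1)
      (fun v => F.T1 w v.1) (fun v => (Cc v.1).image fun s => (F.T1 w v.1 : ℝ) + s)
      (by
        intro v v' hv hv' hs
        obtain ⟨b1, -, -, -, -, -⟩ := prs_pos hv
        obtain ⟨b1', -, -, -, -, -⟩ := prs_pos hv'
        have e1 := hCcdet v.1 v'.1 b1 b1' hs
        have e2 : F.T1 w v.1 = F.T1 w v'.1 := (Prod.ext_iff.1 (Prod.ext_iff.1 hs).2).2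
        dsimp only
        rw [e1, e2])
      (K := J - w) (k := J - w) (x := x) (n := n i₁) (e := e) (hn i₁)
      (fun v => Finset.card_image_le.trans (hCcn v.1)) hxK le_rfl
      (fun v _ => T_mem F w v.1)
      (by
        rw [(prs_fst F (w - y)).CH F.T (slam F w)]
        exact CH_T_slam F hwJ he) he0
    have t2 := time_ev hQ (fun v : F.Ω × F.Ω => F.T v.2) (fun v => (v.1, slam F (w - y) v.2))
      (fun v => F.T1 (w - y) v.2) (fun v => (Cc v.1).image fun s => (F.T1 w v.1 : ℝ) + s)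
      (by
        intro v v' hv hv' hs
        have e1 := Prod.ext_iff.1 hs
        have e2 : v.1 = v'.1 := e1.1
        have e3 : F.T1 (w - y) v.2 = F.T1 (w - y) v'.2 :=
          (Prod.ext_iff.1 (Prod.ext_iff.1 e1.2).2).2
        dsimp only
        rw [e2, e3])
      (K := J - (w - y)) (k := J - w) (x := x) (n := n i₁) (e := e) (hn i₁)
      (fun v => Finset.card_image_le.trans (hCcn v.1)) hxK (by omega)
      (fun v _ => T_mem F (w - y) v.2)
      (by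
        rw [prs_T2]
        exact CH_T_slam F (by omega) he) he0
    have hle : Pb ≤ Ex (prs F (w - y)) (fun v => if ∃ s ∈ (Cc v.1).image
        (fun s => (F.T1 w v.1 : ℝ) + s), |(F.T v.1 : ℝ) - 2 ^ (J - w) * s| < 2 ^ (J - w - x)
        then (1 : ℝ) else 0) + Ex (prs F (w - y)) (fun v => if ∃ s ∈ (Cc v.1).image
        (fun s => (F.T1 w v.1 : ℝ) + s), |(F.T v.2 : ℝ) - 2 ^ (J - w) * s| < 2 ^ (J - w - x)
        then (1 : ℝ) else 0) := by
      rw [hPb, ← Ex_add]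
      refine Ex_mono h0 fun v _ => ?_
      have hconv : ∀ b : F.Ω, (∃ s ∈ Cc v.1, |rtm F w v.1 b - s| < 1 / 2 ^ x) →
          ∃ s ∈ (Cc v.1).image (fun s => (F.T1 w v.1 : ℝ) + s),
            |(F.T b : ℝ) - 2 ^ (J - w) * s| < 2 ^ (J - w - x) := by
        rintro b ⟨s, hs, h1⟩
        exact ⟨_, Finset.mem_image_of_mem _ hs, (near_iff F hxK v.1 b s).1 h1⟩
      rw [hbad]
      dsimp only
      by_cases h1 : ∃ s ∈ Cc v.1, |rtm F w v.1 v.1 - s| < 1 / 2 ^ x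
      · rw [if_pos (Or.inl h1), if_pos (hconv _ h1)]
        have : (0 : ℝ) ≤ if ∃ s ∈ (Cc v.1).image (fun s => (F.T1 w v.1 : ℝ) + s),
            |(F.T v.2 : ℝ) - 2 ^ (J - w) * s| < 2 ^ (J - w - x) then (1 : ℝ) else 0 := by
          split_ifs <;> norm_num
        linarith only [this]
      · by_cases h2 : ∃ s ∈ Cc v.1, |rtm F w v.1 v.2 - s| < 1 / 2 ^ x
        · rw [if_pos (Or.inr h2), if_pos (hconv _ h2)]
          have : (0 : ℝ) ≤ if ∃ s ∈ (Cc v.1).image (fun s => (F.T1 w v.1 : ℝ) + s),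
              |(F.T v.1 : ℝ) - 2 ^ (J - w) * s| < 2 ^ (J - w - x) then (1 : ℝ) else 0 := by
            split_ifs <;> norm_num
          linarith only [this]
        · rw [if_neg (by
            rintro (h3 | h3)
            · exact h1 h3
            · exact h2 h3)]
          split_ifs <;> norm_num
    have h1 := mul_le_mul_of_nonneg_right hle (by positivity : (0 : ℝ) ≤ x)
    rw [add_mul] at h1
    have h2 : (e + Real.log 2 + Real.log (3 * (n i₁ : ℝ))) / Real.log 2 ≤ c₂ * (e + 1) := by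
      rw [hc₂, div_mul_eq_mul_div]
      refine div_le_div_of_nonneg_right ?_ hlog.le
      have h3 : 0 ≤ (Real.log 2 + Real.log (3 * n₀)) * e := by positivity
      nlinarith only [hn3, h3]
    linarith only [t1, t2, h1, h2]
  -- the chain of conditional entropies
  obtain ⟨U, hU⟩ : ∃ U : F.Ω × F.Ω → (((((ℕ × (Fin 3 → ℝ)) × ((Fin 3 → ℤ) × (Fin 3 → ℤ))) × F.ζ) ×
      V) × (ℕ × ℕ × F.ζ)), U = fun v => ((F.blab w (Box.plkC lam i₀) g v.1, zi v.1),
      (F.T v.1, F.T v.2, F.Z v.1)) := ⟨_, rfl⟩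
  obtain ⟨I, hI⟩ : ∃ I : F.Ω × F.Ω → List (Option (Fin 3)) × Bool, I = fun v =>
    (Lt v.1, decide (bad v)) := ⟨_, rfl⟩
  obtain ⟨K, hK⟩ : ∃ K : F.Ω × F.Ω → Fin 3 → ℤ, K = fun v => kcl F w J' h lam i₀ g p v := ⟨_, rfl⟩
  have c1 := CH_le_add h0 (fun v : F.Ω × F.Ω => F.X Qt v.2) I U
  have c2 := CH_le_add h0 (fun v : F.Ω × F.Ω => F.X Qt v.2) K (fun v => (I v, U v))
  have c3 : CH (prs F (w - y)) I U ≤ Real.log τ₀ + Real.log 2 := by
    have h3 := CH_le_card h0 hQ.sum_one I U (fun _ => (T i₁) ×ˢ (Finset.univ : Finset Bool))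
      (fun v hv => by
        obtain ⟨b1, -, -, -, -, -⟩ := prs_pos hv
        rw [hI, Finset.mem_product]
        exact ⟨(hLt v.1 b1).1, Finset.mem_univ _⟩)
    rw [Ex_const hQ.sum_one, Finset.card_product, Finset.card_univ, Fintype.card_bool] at h3
    refine h3.trans ?_
    rcases Nat.eq_zero_or_pos (T i₁).card with h4 | h4
    · rw [h4, zero_mul, Nat.cast_zero, Real.log_zero]
      positivity
    · have h5 : ((T i₁).card : ℝ) ≤ τ₀ := by exact_mod_cast hτi i₁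
      have h6 : (0 : ℝ) < (T i₁).card := by exact_mod_cast h4
      push_cast
      rw [Real.log_mul h6.ne' (by norm_num)]
      have := Real.log_le_log h6 h5
      linarith only [this]
  -- the number of cells
  obtain ⟨N, hN⟩ : ∃ N : ℕ, N = 2 ^ (y + p + 3) := ⟨_, rfl⟩
  have hlN : Real.log (2 * (N : ℝ) + 1) ≤ ((y : ℝ) + p + 5) * Real.log 2 := by
    have h1 := (log_N (y + p)).1
    rw [hN]
    push_cast at h1 ⊢
    exact h1
  have hlN0 : 0 ≤ Real.log (2 * (N : ℝ) + 1) := Real.log_nonneg (by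
    have : (0 : ℝ) ≤ N := Nat.cast_nonneg N
    linarith only)
  obtain ⟨Zs, hZs⟩ : ∃ Zs : MvPolynomial (Fin 3) ℝ → Finset (Fin 3 → ℤ), Zs = fun R' =>
      (bxc N).filter fun k => ∃ (x' : Fin 3 → ℝ) (j : Fin 3), (∀ l, k l = ⌊x' l / ε⌋) ∧
        MvPolynomial.eval x' (MvPolynomial.pderiv j R') ≠ 0 ∧
        |MvPolynomial.eval x' R'| ≤ ε * |MvPolynomial.eval x' (MvPolynomial.pderiv j R')| :=
    ⟨_, rfl⟩
  have hZc : ∀ R', R'.totalDegree ≤ D → ((Zs R').card : ℝ) ≤ C₁ * (2 * N + 1) ^ 2 := by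
    intro R' hR'
    refine hcells R' ε N (Zs R') hR' hε0 fun k hk => ?_
    rw [hZs, Finset.mem_filter, mem_bxc] at hk
    exact hk
  have c4 : CH (prs F (w - y)) K (fun v => (I v, U v)) ≤ Real.log C₁ +
      2 * Real.log (2 * (N : ℝ) + 1) + 3 * Real.log (2 * (N : ℝ) + 1) * Pb := by
    have h3 := CH_le_card h0 hQ.sum_one K (fun v => (I v, U v))
      (fun c => if c.1.2 = true then bxc N else Zs (tfx i₁
        (((c.2.2.2.1 : ℝ) - 2 ^ (J - w) * (c.2.1.1.1.1.1 : ℕ)) / 2 ^ (J - w))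
        (dl c.1.1 (R c.2.1.2)))) (by
        intro v hv
        obtain ⟨b1, b2, b3, b4, b5, b6⟩ := prs_pos hv
        have hbx : K v ∈ bxc N := by
          rw [mem_bxc, hK, hN]
          intro l
          exact_mod_cast kcl_le F h hy hv l
        by_cases hb : bad v
        · rw [if_pos (by rw [hI]; simpa using hb)]
          exact hbx
        · rw [if_neg (by rw [hI]; simpa using hb)]
          have e1 : ((((U v).2.2.1 : ℕ) : ℝ) - 2 ^ (J - w) * (((U v).1.1.1.1.1 : ℕ) : ℝ)) /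
              2 ^ (J - w) = rtm F w v.1 v.2 := by
            rw [hU]
            rfl
          have e2 : (I v).1 = Lt v.1 := by rw [hI]
          have e3 : (U v).1.2 = zi v.1 := by rw [hU]
          change K v ∈ Zs (tfx i₁ (((((U v).2.2.1 : ℕ) : ℝ) - 2 ^ (J - w) *
            (((U v).1.1.1.1.1 : ℕ) : ℝ)) / 2 ^ (J - w)) (dl (I v).1 (R (U v).1.2)))
          rw [e1, e2, e3, hZs, Finset.mem_filter]
          refine ⟨hbx, ?_⟩
          have hnb : ∀ b : F.Ω, ¬ (∃ s ∈ Cc v.1, |rtm F w v.1 b - s| < 1 / 2 ^ x) →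
              ∀ s ∈ Cc v.1, 1 / 2 ^ x ≤ |rtm F w v.1 b - s| := by
            intro b h4 s hs
            by_contra h5
            push Not at h5
            exact h4 ⟨s, hs, h5⟩
          rw [hbad] at hb
          push Not at hb
          obtain ⟨l, hl1, hl2⟩ := (hLt v.1 b1).2 (rtm F w v.1 v.2) (rtm_diff F hwJ hy b6)
            (fun s hs => hb.1 s hs) (fun s hs => hb.2 s hs)
          refine ⟨rps F w J' h (Box.plkC lam i₀) g v.1 v.2, l, ?_, hl1, hl2⟩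
          intro l'
          rw [hK, hε]
          rfl)
    refine h3.trans ?_
    have h4 : Ex (prs F (w - y)) (fun v => Real.log C₁ + 2 * Real.log (2 * (N : ℝ) + 1) +
        3 * Real.log (2 * (N : ℝ) + 1) * (if bad v then (1 : ℝ) else 0)) =
        Real.log C₁ + 2 * Real.log (2 * (N : ℝ) + 1) + 3 * Real.log (2 * (N : ℝ) + 1) * Pb := by
      rw [Ex_add, Ex_const hQ.sum_one, Ex_smul, hPb]
    rw [← h4]
    refine Ex_mono h0 fun v hv => ?_
    by_cases hb : bad v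
    · rw [if_pos (by rw [hI]; simpa using hb), if_pos hb, card_bxc]
      push_cast
      rw [Real.log_pow]
      push_cast
      linarith only [hl2, hlN0]
    · rw [if_neg (by rw [hI]; simpa using hb), if_neg hb, mul_zero, add_zero]
      have h5 := hZc (tfx i₁ (((((U v).2.2.1 : ℕ) : ℝ) - 2 ^ (J - w) *
            (((U v).1.1.1.1.1 : ℕ) : ℝ)) / 2 ^ (J - w)) (dl (I v).1 (R (U v).1.2)))
        ((tfx_deg _ _ _).trans ((td_dl _ _ D (hR _)).trans (Nat.sub_le _ _)))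
      rcases Nat.eq_zero_or_pos (Zs (tfx i₁ (((((U v).2.2.1 : ℕ) : ℝ) - 2 ^ (J - w) *
            (((U v).1.1.1.1.1 : ℕ) : ℝ)) / 2 ^ (J - w)) (dl (I v).1 (R (U v).1.2)))).card with h6 | h6
      · rw [h6, Nat.cast_zero, Real.log_zero]
        positivity
      · have h7 := Real.log_le_log (by exact_mod_cast h6) h5
        rw [Real.log_mul (by linarith only [hC₁]) (by positivity), Real.log_pow] at h7
        push_cast at h7
        exact h7
  -- the position given the cell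
  have c5 := pos_cell F (p := p) (y' := 0) (c' := 2) (Qt := Qt) (w := w) (y := y) (J' := J')
    (lam := lam) h hy (i₀ := i₀) (g := g) hg (by norm_num) (by
      have a1 : (1 + (2 : ℝ) ^ (y + 1)) ≤ 2 ^ (y + 2) := by
        have : (1 : ℝ) ≤ 2 ^ (y + 1) := one_le_pow₀ (by norm_num)
        rw [pow_succ (2 : ℝ) (y + 1)]
        linarith only [this]
      have a2 : (2 : ℝ) ^ (y + 2) * 2 ^ p ≤ 2 ^ J' := by
        rw [← pow_add]
        exact pow_le_pow_right₀ (by norm_num) (by omega)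
      have a3 : (1 + (2 : ℝ) ^ (y + 1)) / 2 ^ J' ≤ 1 / 2 ^ p := by
        rw [div_le_div_iff₀ (by positivity) (by positivity), one_mul]
        calc _ ≤ (2 : ℝ) ^ (y + 2) * 2 ^ p := mul_le_mul_of_nonneg_right a1 (by positivity)
          _ ≤ 2 ^ J' := a2
      have a4 : (2 : ℝ) * 2 ^ 0 / 2 ^ p = 1 / 2 ^ p + 1 / 2 ^ p := by ring
      rw [a4]
      linarith only [a3]) (by omega) (fun v => (K v, (I v, U v))) (by
      intro v v' _ _ hc
      have e1 := Prod.ext_iff.1 hc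
      have e2 := Prod.ext_iff.1 e1.2
      have e3 : U v = U v' := e2.2
      rw [hU] at e3
      have e4 := Prod.ext_iff.1 e3
      have e5 := Prod.ext_iff.1 e4.1
      have e6 := Prod.ext_iff.1 (Prod.ext_iff.1 e4.2).2
      have e7 : K v = K v' := e1.1
      rw [hK] at e7
      exact Prod.ext e7 (Prod.ext e5.1 e6.1))
  rw [full_eq] at c5
  have h5 : (2 : ℝ) * (2 * 2 + (3 : ℕ) * 5 + 1) + 1 = 41 := by norm_num
  rw [h5] at c5
  push_cast at c5
  -- the sum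
  rw [← hU]
  have hx0 : (0 : ℝ) < x := by linarith only [hx1]
  have d1 : Pb ≤ 2 * (c₂ * (e + 1)) / x := by
    rw [le_div_iff₀ hx0]
    exact hPbx
  have hyJ : (y : ℝ) + p + 5 ≤ 5 * (J + 1) := by
    have h6 : y + p ≤ 2 * J := by omega
    have h7 : (y : ℝ) + p ≤ 2 * J := by exact_mod_cast h6
    have : (0 : ℝ) ≤ J := Nat.cast_nonneg J
    linarith only [h7]
  have d2 : 3 * Real.log (2 * (N : ℝ) + 1) * Pb ≤ 30 * c₂ * (e + 1) * (J + 1) / x := by
    have h6 : Real.log (2 * (N : ℝ) + 1) ≤ 5 * (J + 1) := by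
      have h8 : (0 : ℝ) ≤ (y : ℝ) + p + 5 := by positivity
      calc _ ≤ ((y : ℝ) + p + 5) * Real.log 2 := hlN
        _ ≤ ((y : ℝ) + p + 5) * 1 := mul_le_mul_of_nonneg_left hlog1 h8
        _ ≤ 5 * (J + 1) := by linarith only [hyJ]
    have h7 : 3 * Real.log (2 * (N : ℝ) + 1) * Pb ≤ 3 * (5 * (J + 1)) *
        (2 * (c₂ * (e + 1)) / x) :=
      mul_le_mul (by linarith only [h6]) d1 hPb0 (by positivity)
    refine h7.trans (le_of_eq ?_)
    ring
  have d3 : (p : ℝ) = P - E := by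
    have : ((p + E : ℕ) : ℝ) = P := by exact_mod_cast hpP
    push_cast at this
    linarith only [this]
  have d4 : (E : ℝ) = 9 + D + (2 * D + 2) * (y + x + 1) := by
    rw [hE]
    push_cast
    ring
  have hyx : (1 : ℝ) ≤ (y : ℝ) + x + 1 := by
    have : (0 : ℝ) ≤ y := Nat.cast_nonneg y
    linarith only [hx1]
  have d7 : (E : ℝ) + 2 * y + 10 ≤ (3 * D + 23) * (y + x + 1) := by
    rw [d4]
    have h6 : (0 : ℝ) ≤ D := Nat.cast_nonneg D
    have h7 : (D : ℝ) * 1 ≤ D * (y + x + 1) := mul_le_mul_of_nonneg_left hyx h6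
    have h8 : (0 : ℝ) ≤ x := Nat.cast_nonneg x
    nlinarith only [hx1, h7]
  have hJ0 : (0 : ℝ) ≤ J := Nat.cast_nonneg J
  exact fin_arith hlog hc₀0 hc₂0 hyx he0 hJ0 hx0 (Nat.cast_nonneg D) hc₀ d3 d7 hlN d2 c1 c2 c3 c4
    (by linarith only [c5, c5])

end Pool.LBW
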