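import Mathlib

/-!
# Polynomials with a dominating first order term

A polynomial `R` of degree at most `D` is small at a point, compared with one of its first
derivatives. Then some iterated derivative `S` of `R` and some direction `i` have the property that
`|S| ≤ 2 ρ |∂_i S|` in a whole ball about the point of radius comparable with `ρ`.
-/

set_option autoImplicit false

namespace Pool.LBW

open Finset Real MvPolynomial

section Deriv

variable {σ : Type} [Fintype σ] [DecidableEq σ]

omit [Fintype σ] [DecidableEq σ] in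
theorem td_pd (o : σ) (Q : MvPolynomial σ ℝ) (d : ℕ) (hQ : Q.totalDegree ≤ d + 1) :
    (pderiv o Q).totalDegree ≤ d := by
  classical
  unfold totalDegree
  refine Finset.sup_le ?_
  intro m hm
  rw [mem_support_iff, coeff_pderiv] at hm
  have h1 : m + Finsupp.single o 1 ∈ Q.support := by
    rw [mem_support_iff]
    exact left_ne_zero_of_mul hm
  have h2 := le_totalDegree h1
  have h3 : ((m + Finsupp.single o 1).sum fun _ e => e) = (m.sum fun _ e => e) + 1 := by
    rw [Finsupp.sum_add_index' (fun _ => rfl) (fun _ _ _ => rfl), Finsupp.sum_single_index rfl]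
  omega

omit [Fintype σ] [DecidableEq σ] in
theorem td_pd_le (o : σ) (Q : MvPolynomial σ ℝ) (d : ℕ) (hQ : Q.totalDegree ≤ d) :
    (pderiv o Q).totalDegree ≤ d := by
  rcases d with _ | d
  · have h0 : Q.totalDegree = 0 := by omega
    rw [totalDegree_eq_zero_iff_eq_C] at h0
    rw [h0, pderiv_C]
    simp
  · exact (td_pd o Q d hQ).trans (Nat.le_succ d)

/-- The derivative along a line. -/
theorem hasDerivAt_line (P : MvPolynomial σ ℝ) (x v : σ → ℝ) (t : ℝ) :
    HasDerivAt (fun s : ℝ => eval (fun i => x i + s * v i) P)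
      (∑ j, v j * eval (fun i => x i + t * v i) (pderiv j P)) t := by
  induction P using MvPolynomial.induction_on with
  | C a =>
    simp only [eval_C, pderiv_C, map_zero, mul_zero, Finset.sum_const_zero]
    exact hasDerivAt_const t a
  | add p q hp hq =>
    simp only [map_add, mul_add, Finset.sum_add_distrib]
    exact hp.add hq
  | mul_X p i hp =>
    have h1 : HasDerivAt (fun s : ℝ => x i + s * v i) (v i) t := by
      have := ((hasDerivAt_id t).mul_const (v i)).const_add (x i)
      simpa using this
    have h2 := hp.mul h1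
    have e : (∑ j, v j * eval (fun k => x k + t * v k) (pderiv j (p * X i))) =
        (∑ j, v j * eval (fun k => x k + t * v k) (pderiv j p)) * (x i + t * v i) +
        eval (fun k => x k + t * v k) p * v i := by
      have e1 : ∀ j, v j * eval (fun k => x k + t * v k) (pderiv j (p * X i)) =
          v j * eval (fun k => x k + t * v k) (pderiv j p) * (x i + t * v i) +
          eval (fun k => x k + t * v k) p * (if i = j then v j else 0) := by
        intro j
        rw [pderiv_mul, pderiv_X]
        simp only [map_add, map_mul, eval_X, Pi.single_apply]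
        by_cases hij : i = j
        · simp only [hij, if_true, map_one]
          ring
        · simp only [hij, if_false, map_zero]
          ring
      rw [Finset.sum_congr rfl fun j _ => e1 j, Finset.sum_add_distrib, ← Finset.sum_mul,
        ← Finset.mul_sum, Finset.sum_ite_eq]
      simp
    rw [e]
    simp only [map_mul, eval_X]
    exact h2

/-- Iterated derivatives. -/
noncomputable def dl (L : List σ) (R : MvPolynomial σ ℝ) : MvPolynomial σ ℝ :=
  L.foldr (fun i S => pderiv i S) R

omit [Fintype σ] [DecidableEq σ] in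
theorem dl_append (L L' : List σ) (R : MvPolynomial σ ℝ) : dl (L ++ L') R = dl L (dl L' R) := by
  unfold dl
  rw [List.foldr_append]

omit [Fintype σ] [DecidableEq σ] in
theorem dl_cons (i : σ) (L : List σ) (R : MvPolynomial σ ℝ) : dl (i :: L) R = pderiv i (dl L R) :=
  rfl

omit [Fintype σ] [DecidableEq σ] in
theorem dl_nil (R : MvPolynomial σ ℝ) : dl [] R = R := rfl

omit [Fintype σ] [DecidableEq σ] in
theorem td_dl (L : List σ) (R : MvPolynomial σ ℝ) (D : ℕ) (h : R.totalDegree ≤ D) :
    (dl L R).totalDegree ≤ D - L.length := by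
  induction L with
  | nil => simpa [dl] using h
  | cons i L ih =>
    rw [dl_cons, List.length_cons]
    rcases Nat.eq_zero_or_pos (D - L.length) with h0 | h0
    · have := td_pd_le i _ _ ih
      omega
    · have := td_pd i (dl L R) (D - L.length - 1) (by omega)
      omega

omit [Fintype σ] [DecidableEq σ] in
/-- Derivatives of high order vanish. -/
theorem dl_zero (L : List σ) (R : MvPolynomial σ ℝ) (D : ℕ) (h : R.totalDegree ≤ D)
    (hL : D < L.length) : dl L R = 0 := by
  cases L with
  | nil => simp at hL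
  | cons i L =>
    rw [List.length_cons] at hL
    have h1 := td_dl L R D h
    have h2 : (dl L R).totalDegree = 0 := by omega
    rw [totalDegree_eq_zero_iff_eq_C] at h2
    rw [dl_cons, h2, pderiv_C]

/-- A bound for the difference of values of a polynomial in terms of its derivatives at a point. -/
theorem taylor_bd {ρ θ : ℝ} (hρ : 0 < ρ) (hθ : 0 ≤ θ) (x : σ → ℝ) : ∀ (d : ℕ)
    (S : MvPolynomial σ ℝ) (M : ℝ), S.totalDegree ≤ d →
    (∀ L : List σ, |eval x (dl L S)| * ρ ^ L.length ≤ M) → ∀ y : σ → ℝ,
    (∀ j, |y j - x j| ≤ θ * ρ / Fintype.card σ) →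
    |eval y S - eval x S| ≤ M * ∑ k ∈ Finset.range d, θ ^ (k + 1) := by
  intro d
  induction d with
  | zero =>
    intro S M hS hM y hy
    have h0 : S.totalDegree = 0 := by omega
    rw [totalDegree_eq_zero_iff_eq_C] at h0
    rw [h0, eval_C, eval_C, sub_self, abs_zero]
    simp
  | succ d ih =>
    intro S M hS hM y hy
    have hM0 : 0 ≤ M := by
      have := hM []
      exact (by positivity : (0 : ℝ) ≤ |eval x (dl [] S)| * ρ ^ ([] : List σ).length).trans this
    obtain ⟨n, hn⟩ : ∃ n : ℝ, n = Fintype.card σ := ⟨_, rfl⟩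
    have hn0 : 0 ≤ n := by rw [hn]; positivity
    rw [← hn] at hy
    -- derivatives in the ball
    have hder : ∀ j : σ, ∀ z : σ → ℝ, (∀ i, |z i - x i| ≤ θ * ρ / n) →
        |eval z (pderiv j S)| ≤ M / ρ * (1 + ∑ k ∈ Finset.range d, θ ^ (k + 1)) := by
      intro j z hz
      have h1 := ih (pderiv j S) (M / ρ) (td_pd j S d hS) (by
        intro L
        have h2 := hM (L ++ [j])
        rw [dl_append, List.length_append, List.length_singleton, pow_succ] at h2
        have h3 : dl [j] S = pderiv j S := rfl
        rw [h3] at h2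
        rw [le_div_iff₀ hρ]
        linarith) z (by rw [← hn]; exact hz)
      have h2 : |eval x (pderiv j S)| ≤ M / ρ := by
        have h3 := hM [j]
        rw [List.length_singleton, pow_one] at h3
        rw [le_div_iff₀ hρ]
        exact h3
      have h3 : |eval z (pderiv j S)| ≤ |eval z (pderiv j S) - eval x (pderiv j S)| +
          |eval x (pderiv j S)| := by
        have := abs_add_le (eval z (pderiv j S) - eval x (pderiv j S)) (eval x (pderiv j S))
        rwa [sub_add_cancel] at this
      calc _ ≤ M / ρ * ∑ k ∈ Finset.range d, θ ^ (k + 1) + M / ρ := by linarith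
        _ = _ := by ring
    -- the segment
    have hseg : ∀ t ∈ Set.Icc (0 : ℝ) 1, ∀ i, |(x i + t * (y i - x i)) - x i| ≤ θ * ρ / n := by
      intro t ht i
      have e : (x i + t * (y i - x i)) - x i = t * (y i - x i) := by ring
      rw [e, abs_mul, abs_of_nonneg ht.1]
      calc t * |y i - x i| ≤ 1 * |y i - x i| :=
            mul_le_mul_of_nonneg_right ht.2 (abs_nonneg _)
        _ ≤ θ * ρ / n := by rw [one_mul]; exact hy i
    obtain ⟨B, hB⟩ : ∃ B, B = M * ∑ k ∈ Finset.range (d + 1), θ ^ (k + 1) := ⟨_, rfl⟩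
    have hgeo : θ * (1 + ∑ k ∈ Finset.range d, θ ^ (k + 1)) =
        ∑ k ∈ Finset.range (d + 1), θ ^ (k + 1) := by
      rw [Finset.sum_range_succ', mul_add, Finset.mul_sum]
      rw [add_comm]
      congr 1
      · refine Finset.sum_congr rfl fun k _ => ?_
        ring
      · ring
    have h1 := norm_image_sub_le_of_norm_deriv_le_segment_01' (C := B)
      (f := fun t : ℝ => eval (fun i => x i + t * (y i - x i)) S)
      (f' := fun t => ∑ j, (y j - x j) * eval (fun i => x i + t * (y i - x i)) (pderiv j S))
      (fun t _ => (hasDerivAt_line S x (fun i => y i - x i) t).hasDerivWithinAt) (by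
        intro t ht
        rw [Real.norm_eq_abs]
        refine (Finset.abs_sum_le_sum_abs _ _).trans ?_
        have h2 : ∀ j ∈ Finset.univ, |(y j - x j) * eval (fun i => x i + t * (y i - x i))
            (pderiv j S)| ≤ θ * ρ / n * (M / ρ * (1 + ∑ k ∈ Finset.range d, θ ^ (k + 1))) := by
          intro j _
          rw [abs_mul]
          refine mul_le_mul (hy j) (hder j _ (hseg t ⟨ht.1, ht.2.le⟩)) (abs_nonneg _) ?_
          positivity
        refine (Finset.sum_le_sum h2).trans ?_
        rw [Finset.sum_const, Finset.card_univ, nsmul_eq_mul, ← hn, hB, ← hgeo]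
        rcases hn0.eq_or_lt with h0 | h0
        · rw [← h0]
          simp only [zero_mul]
          have : 0 ≤ ∑ k ∈ Finset.range d, θ ^ (k + 1) := Finset.sum_nonneg fun _ _ => by positivity
          positivity
        · refine le_of_eq ?_
          field_simp)
    rw [Real.norm_eq_abs] at h1
    simp only [one_mul, zero_mul, add_zero, add_sub_cancel] at h1
    rw [← hB]
    exact h1

omit [DecidableEq σ] in
/-- **The dominating term.** -/
theorem dom_term {D : ℕ} {R : MvPolynomial σ ℝ} (hD : R.totalDegree ≤ D) {x : σ → ℝ} {ρ : ℝ}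
    (hρ : 0 < ρ) {j : σ} (hj : eval x (pderiv j R) ≠ 0)
    (hR : |eval x R| ≤ ρ * |eval x (pderiv j R)|) :
    ∃ (L : List σ) (i : σ), L.length ≤ D ∧ eval x (pderiv i (dl L R)) ≠ 0 ∧
      ∀ L' : List σ, |eval x (dl L' (dl L R))| * ρ ^ L'.length ≤
        ρ * |eval x (pderiv i (dl L R))| := by
  classical
  -- lists of bounded length
  obtain ⟨T, hT⟩ : ∃ T : Finset (List σ), ∀ L : List σ, L ∈ T ↔ L.length ≤ D ∧ L ≠ [] := by
    have hfin : {L : List σ | L.length ≤ D ∧ L ≠ []}.Finite :=
      (List.finite_length_le σ D).subset fun L hL => hL.1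
    exact ⟨hfin.toFinset, fun L => by simp⟩
  have hD1 : 1 ≤ D := by
    by_contra h0
    have h1 : R.totalDegree = 0 := by omega
    rw [totalDegree_eq_zero_iff_eq_C] at h1
    rw [h1, pderiv_C, map_zero] at hj
    exact hj rfl
  have hne : T.Nonempty := ⟨[j], (hT _).2 ⟨by simpa using hD1, by simp⟩⟩
  obtain ⟨L₀, hL₀, hmax⟩ := Finset.exists_max_image T
    (fun L => |eval x (dl L R)| * ρ ^ L.length) hne
  rw [hT] at hL₀
  have hall : ∀ L : List σ, |eval x (dl L R)| * ρ ^ L.length ≤
      |eval x (dl L₀ R)| * ρ ^ L₀.length := by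
    intro L
    by_cases hL : L = []
    · subst hL
      have h1 := hmax [j] ((hT _).2 ⟨by simpa using hD1, by simp⟩)
      simp only [List.length_singleton, pow_one] at h1
      have h2 : dl [j] R = pderiv j R := rfl
      rw [h2] at h1
      simp only [List.length_nil, pow_zero, mul_one, dl_nil]
      linarith
    · by_cases hLD : L.length ≤ D
      · exact hmax L ((hT _).2 ⟨hLD, hL⟩)
      · rw [dl_zero L R D hD (by omega), map_zero, abs_zero, zero_mul]
        positivity
  obtain ⟨i, L, rfl⟩ : ∃ i L, L₀ = i :: L := List.exists_cons_of_ne_nil hL₀.2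
  have hlen : L.length ≤ D := by
    have := hL₀.1
    rw [List.length_cons] at this
    omega
  have hρL : (0 : ℝ) < ρ ^ L.length := by positivity
  refine ⟨L, i, hlen, ?_, fun L' => ?_⟩
  · intro h0
    have h1 := hall [j]
    have h2 : dl [j] R = pderiv j R := rfl
    rw [h2, dl_cons i L R, h0, abs_zero, zero_mul, List.length_singleton, pow_one] at h1
    have h3 : 0 < |eval x (pderiv j R)| * ρ := by positivity
    linarith
  · have h1 := hall (L' ++ L)
    rw [dl_append, List.length_append, pow_add, dl_cons, List.length_cons, pow_succ] at h1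
    have h2 : |eval x (dl L' (dl L R))| * ρ ^ L'.length * ρ ^ L.length ≤
        ρ * |eval x (pderiv i (dl L R))| * ρ ^ L.length := by
      calc _ = |eval x (dl L' (dl L R))| * (ρ ^ L'.length * ρ ^ L.length) := by ring
        _ ≤ _ := h1
        _ = _ := by ring
    exact le_of_mul_le_mul_right h2 hρL

/-- **Domination in a ball.** -/
theorem dom_ball {D : ℕ} {R : MvPolynomial σ ℝ} (hD : R.totalDegree ≤ D) {x : σ → ℝ} {ρ : ℝ}
    (hρ : 0 < ρ) {j : σ} (hj : eval x (pderiv j R) ≠ 0)
    (hR : |eval x R| ≤ ρ * |eval x (pderiv j R)|) :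
    ∃ (L : List σ) (i : σ), L.length ≤ D ∧ ∀ y : σ → ℝ,
      (∀ k, |y k - x k| ≤ 1 / 4 * ρ / Fintype.card σ) →
      eval y (pderiv i (dl L R)) ≠ 0 ∧
      |eval y (dl L R)| ≤ 2 * ρ * |eval y (pderiv i (dl L R))| := by
  obtain ⟨L, i, hL, h0, hdom⟩ := dom_term hD hρ hj hR
  refine ⟨L, i, hL, fun y hy => ?_⟩
  obtain ⟨S, hS⟩ : ∃ S, S = dl L R := ⟨_, rfl⟩
  rw [← hS] at h0 hdom ⊢
  have hdS : S.totalDegree ≤ D := by
    rw [hS]
    exact (td_dl L R D hD).trans (Nat.sub_le _ _)
  obtain ⟨M, hM⟩ : ∃ M, M = |eval x (pderiv i S)| := ⟨_, rfl⟩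
  have hM0 : 0 < M := by rw [hM]; positivity
  rw [← hM] at hdom
  have hgeo : ∑ k ∈ Finset.range D, ((1 : ℝ) / 4) ^ (k + 1) ≤ 1 / 3 := by
    have h1 : ∀ n : ℕ, ∑ k ∈ Finset.range n, ((1 : ℝ) / 4) ^ (k + 1) =
        1 / 3 - 1 / 3 * (1 / 4) ^ n := by
      intro n
      induction n with
      | zero => simp
      | succ n ih =>
        rw [Finset.sum_range_succ, ih, pow_succ]
        ring
    rw [h1]
    have : (0 : ℝ) ≤ 1 / 3 * (1 / 4) ^ D := by positivity
    linarith
  have h1 := taylor_bd hρ (by norm_num : (0 : ℝ) ≤ 1 / 4) x D S (ρ * M) hdS hdom y hy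
  have h2 := taylor_bd hρ (by norm_num : (0 : ℝ) ≤ 1 / 4) x D (pderiv i S) M
    (td_pd_le i S D hdS) (by
      intro L'
      have h3 := hdom (L' ++ [i])
      rw [dl_append, List.length_append, List.length_singleton, pow_succ] at h3
      have h4 : dl [i] S = pderiv i S := rfl
      rw [h4] at h3
      have h5 : |eval x (dl L' (pderiv i S))| * ρ ^ L'.length * ρ ≤ M * ρ := by
        calc _ = |eval x (dl L' (pderiv i S))| * (ρ ^ L'.length * ρ) := by ring
          _ ≤ _ := h3
          _ = _ := by ring
      exact le_of_mul_le_mul_right h5 hρ) y hy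
  have h3 : |eval y (pderiv i S) - eval x (pderiv i S)| ≤ 1 / 3 * M := by
    refine h2.trans ?_
    have := mul_le_mul_of_nonneg_left hgeo hM0.le
    linarith
  have h4 : 2 / 3 * M ≤ |eval y (pderiv i S)| := by
    have h5 := abs_sub_abs_le_abs_sub (eval x (pderiv i S)) (eval y (pderiv i S))
    rw [abs_sub_comm] at h5
    rw [← hM] at h5
    linarith
  have h6 : |eval x S| ≤ ρ * M := by
    have := hdom []
    simpa [dl_nil] using this
  have h7 : |eval y S| ≤ 4 / 3 * (ρ * M) := by
    have h8 : |eval y S - eval x S| ≤ 1 / 3 * (ρ * M) := by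
      refine h1.trans ?_
      have := mul_le_mul_of_nonneg_left hgeo (by positivity : (0 : ℝ) ≤ ρ * M)
      linarith
    have h9 := abs_add_le (eval y S - eval x S) (eval x S)
    rw [sub_add_cancel] at h9
    linarith
  refine ⟨?_, ?_⟩
  · intro h8
    rw [h8, abs_zero] at h4
    linarith
  · have h8 : 2 * ρ * (2 / 3 * M) ≤ 2 * ρ * |eval y (pderiv i S)| :=
      mul_le_mul_of_nonneg_left h4 (by positivity)
    linarith

end Deriv

end Pool.LBW
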