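import Pool.Agent.H5.K3.BoxA
import Pool.Agent.H57.LBW.Line

/-!
# The time is not near finitely many exceptional times
-/

set_option autoImplicit false

namespace Pool.LBW

open Finset Real
open Pool.Agent.H49.Ent Pool.Agent.H32.Dense Pool.STK Pool.KA Pool.KSAT Pool.K3

section Event

variable {Ω T : Type} [Fintype Ω]

open Classical in
/-- The probability of a set of few values of a variable of large entropy. -/
theorem te {p : Ω → ℝ} (hp : IsLaw p) (X : Ω → ℕ) (W : Ω → T) (A B : T → Finset ℕ) {a b e : ℝ}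
    (hb : 0 < b) (hab : b ≤ a) (hA : ∀ ω, 0 < p ω → X ω ∈ A (W ω) ∧ ((A (W ω)).card : ℝ) ≤ a)
    (hB : ∀ ω, 0 < p ω → ((B (W ω)).card : ℝ) ≤ b) (hCH : Real.log a - e ≤ CH p X W) :
    Ex p (fun ω => if X ω ∈ B (W ω) then (1 : ℝ) else 0) * Real.log (a / b) ≤
      e + Real.log 2 := by
  have ha : 0 < a := hb.trans_le hab
  obtain ⟨I, hI⟩ : ∃ I : Ω → Bool, I = fun ω => decide (X ω ∈ B (W ω)) := ⟨_, rfl⟩
  have h1 : CH p X W ≤ CH p I W + CH p X (fun ω => (I ω, W ω)) := CH_le_add hp.nonneg X I W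
  have h2 : CH p I W ≤ Real.log 2 := by
    have h3 := CH_le_card hp.nonneg hp.sum_one I W (fun _ => Finset.univ)
      (fun ω _ => Finset.mem_univ _)
    refine h3.trans ?_
    rw [Ex_const hp.sum_one]
    simp
  have h3 := CH_le_card hp.nonneg hp.sum_one X (fun ω => (I ω, W ω))
    (fun v => if v.1 = true then B v.2 else A v.2) (by
      intro ω hω
      rw [hI]
      dsimp only
      by_cases h : X ω ∈ B (W ω)
      · rw [if_pos (by simpa using h)]
        exact h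
      · rw [if_neg (by simpa using h)]
        exact (hA ω hω).1)
  have h4 : Ex p (fun ω => Real.log
      ((if (I ω, W ω).1 = true then B (I ω, W ω).2 else A (I ω, W ω).2).card)) ≤
      Ex p (fun ω => Real.log a + (-Real.log (a / b)) *
        (if X ω ∈ B (W ω) then (1 : ℝ) else 0)) := by
    refine Ex_mono hp.nonneg fun ω hω => ?_
    rw [hI]
    dsimp only
    by_cases h : X ω ∈ B (W ω)
    · rw [if_pos (by simpa using h), if_pos h, mul_one, Real.log_div ha.ne' hb.ne']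
      have hc : (0 : ℝ) < ((B (W ω)).card : ℝ) := by
        exact_mod_cast Finset.card_pos.2 ⟨_, h⟩
      have := Real.log_le_log hc (hB ω hω)
      linarith
    · rw [if_neg (by simpa using h), if_neg h, mul_zero, add_zero]
      have hc : (0 : ℝ) < ((A (W ω)).card : ℝ) := by
        exact_mod_cast Finset.card_pos.2 ⟨_, (hA ω hω).1⟩
      exact Real.log_le_log hc (hA ω hω).2
  rw [Ex_add, Ex_const hp.sum_one, Ex_smul] at h4
  linarith

open Classical in
/-- The probability that a time is near one of a few centres. -/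
theorem time_ev {p : Ω → ℝ} (hp : IsLaw p) (X : Ω → ℕ) (W : Ω → T) (t : Ω → ℕ)
    (Cc : Ω → Finset ℝ) (hdet : Det p W (fun ω => (t ω, Cc ω))) {K k x n : ℕ} {e : ℝ}
    (hn : 1 ≤ n) (hC : ∀ ω, (Cc ω).card ≤ n) (hx : x ≤ k) (hk : k ≤ K)
    (hX : ∀ ω, 0 < p ω → X ω ∈ Finset.Ico (t ω * 2 ^ K) ((t ω + 1) * 2 ^ K))
    (hCH : K * Real.log 2 - e ≤ CH p X W) (he : 0 ≤ e) :
    Ex p (fun ω => if ∃ s ∈ Cc ω, |(X ω : ℝ) - 2 ^ k * s| < 2 ^ (k - x) then (1 : ℝ) else 0) * x ≤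
      (e + Real.log 2 + Real.log (3 * n)) / Real.log 2 := by
  have hlog : 0 < Real.log 2 := Real.log_pos one_lt_two
  obtain ⟨qq, hq⟩ : ∃ qq, qq = Ex p (fun ω => if ∃ s ∈ Cc ω, |(X ω : ℝ) - 2 ^ k * s| < 2 ^ (k - x)
    then (1 : ℝ) else 0) := ⟨_, rfl⟩
  rw [← hq]
  have hq0 : 0 ≤ qq := by
    rw [hq]
    refine Ex_nonneg hp.nonneg fun ω _ => ?_
    split_ifs <;> norm_num
  have hq1 : qq ≤ 1 := by
    have h1 : qq ≤ Ex p (fun _ => (1 : ℝ)) := by
      rw [hq]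
      refine Ex_mono hp.nonneg fun ω _ => ?_
      split_ifs <;> norm_num
    rwa [Ex_const hp.sum_one] at h1
  have hn0 : (0 : ℝ) < n := by exact_mod_cast hn
  have hn1 : (1 : ℝ) ≤ n := by exact_mod_cast hn
  have hl3 : 0 ≤ Real.log (3 * n) := Real.log_nonneg (by linarith)
  rw [le_div_iff₀ hlog]
  by_cases hbig : (3 * n : ℝ) * 2 ^ (k - x) ≤ 2 ^ K
  · have h1 := te hp X (fun ω => (t ω, Cc ω))
      (fun v => Finset.Ico (v.1 * 2 ^ K) ((v.1 + 1) * 2 ^ K))
      (fun v => (Finset.Ico (v.1 * 2 ^ K) ((v.1 + 1) * 2 ^ K)).filter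
        fun T => ∃ s ∈ v.2, |(T : ℝ) - 2 ^ k * s| < 2 ^ (k - x))
      (a := 2 ^ K) (b := 3 * n * 2 ^ (k - x)) (e := e) (by positivity) hbig (by
        intro ω hω
        refine ⟨hX ω hω, ?_⟩
        rw [Nat.card_Ico, add_mul, one_mul, Nat.add_sub_cancel_left]
        push_cast
        exact le_rfl) (by
        intro ω _
        dsimp only
        obtain ⟨B, hB⟩ : ∃ B, B = (Finset.Ico (t ω * 2 ^ K) ((t ω + 1) * 2 ^ K)).filter
          (fun T : ℕ => ∃ s ∈ Cc ω, |(T : ℝ) - 2 ^ k * s| < 2 ^ (k - x)) := ⟨_, rfl⟩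
        rw [← hB]
        have h2 : (B.image (fun T : ℕ => (T : ℤ))).card = B.card :=
          Finset.card_image_of_injective _ Nat.cast_injective
        have h3 := Pool.QQ.ints_near (Cc ω) (2 ^ k) (2 ^ (k - x)) (B.image (fun T : ℕ => (T : ℤ)))
          (by
            intro z hz
            obtain ⟨T', hT', rfl⟩ := Finset.mem_image.1 hz
            rw [hB, Finset.mem_filter] at hT'
            obtain ⟨s, hs, h4⟩ := hT'.2
            exact ⟨s, hs, by push_cast; exact h4.le⟩)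
        rw [h2] at h3
        have h4 : ⌈2 * (2 : ℝ) ^ (k - x)⌉₊ = 2 * 2 ^ (k - x) := by
          have : 2 * (2 : ℝ) ^ (k - x) = ((2 * 2 ^ (k - x) : ℕ) : ℝ) := by push_cast; rfl
          rw [this, Nat.ceil_natCast]
        rw [h4] at h3
        have h5 : (B.card : ℝ) ≤ (Cc ω).card * (2 * 2 ^ (k - x) + 1) := by exact_mod_cast h3
        have h6 : ((Cc ω).card : ℝ) ≤ n := by exact_mod_cast hC ω
        have h7 : (1 : ℝ) ≤ 2 ^ (k - x) := one_le_pow₀ (by norm_num)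
        calc (B.card : ℝ) ≤ (Cc ω).card * (2 * 2 ^ (k - x) + 1) := h5
          _ ≤ n * (3 * 2 ^ (k - x)) :=
            mul_le_mul h6 (by linarith) (by positivity) (Nat.cast_nonneg n)
          _ = 3 * n * 2 ^ (k - x) := by ring) (by
        rw [Real.log_pow]
        exact hCH.trans (CH_mono_cond hp.nonneg hdet))
    have h2 : Ex p (fun ω => if X ω ∈ (Finset.Ico (t ω * 2 ^ K) ((t ω + 1) * 2 ^ K)).filter
        (fun T : ℕ => ∃ s ∈ Cc ω, |(T : ℝ) - 2 ^ k * s| < 2 ^ (k - x)) then (1 : ℝ) else 0) = qq := by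
      rw [hq]
      refine le_antisymm (Ex_mono hp.nonneg fun ω hω => ?_) (Ex_mono hp.nonneg fun ω hω => ?_)
      · by_cases h : ∃ s ∈ Cc ω, |(X ω : ℝ) - 2 ^ k * s| < 2 ^ (k - x)
        · rw [if_pos h]
          split_ifs <;> norm_num
        · rw [if_neg h, if_neg]
          rw [Finset.mem_filter]
          exact fun h1 => h h1.2
      · by_cases h : ∃ s ∈ Cc ω, |(X ω : ℝ) - 2 ^ k * s| < 2 ^ (k - x)
        · rw [if_pos h, if_pos]
          rw [Finset.mem_filter]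
          exact ⟨hX ω hω, h⟩
        · rw [if_neg h]
          split_ifs <;> norm_num
    rw [h2] at h1
    have h3 : (x : ℝ) * Real.log 2 - Real.log (3 * n) ≤
        Real.log (2 ^ K / (3 * n * 2 ^ (k - x))) := by
      have g1 : (3 * (n : ℝ)) ≠ 0 := by positivity
      have g2 : (2 : ℝ) ^ (k - x) ≠ 0 := by positivity
      rw [Real.log_div (by positivity) (by positivity), Real.log_mul g1 g2,
        Real.log_pow, Real.log_pow]
      have h4 : ((k - x : ℕ) : ℝ) = (k : ℝ) - x := by rw [Nat.cast_sub hx]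
      have h5 : (k : ℝ) ≤ K := by exact_mod_cast hk
      rw [h4]
      nlinarith
    have h4 := mul_le_mul_of_nonneg_left h3 hq0
    have h5 : qq * Real.log (3 * n) ≤ 1 * Real.log (3 * n) := mul_le_mul_of_nonneg_right hq1 hl3
    nlinarith
  · -- few values
    push Not at hbig
    have h1 : (2 : ℝ) ^ x ≤ 3 * n := by
      have h2 : (2 : ℝ) ^ k ≤ 2 ^ K := pow_le_pow_right₀ (by norm_num) hk
      have h3 : (2 : ℝ) ^ k = 2 ^ x * 2 ^ (k - x) := by
        rw [← pow_add]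
        congr 1
        omega
      have h4 : (2 : ℝ) ^ x * 2 ^ (k - x) < 3 * n * 2 ^ (k - x) := by
        rw [← h3]
        exact lt_of_le_of_lt h2 hbig
      exact (lt_of_mul_lt_mul_right h4 (by positivity)).le
    have h2 := Real.log_le_log (by positivity) h1
    rw [Real.log_pow] at h2
    have h3 : qq * (x * Real.log 2) ≤ 1 * (x * Real.log 2) :=
      mul_le_mul_of_nonneg_right hq1 (by positivity)
    linarith [mul_assoc qq (x : ℝ) (Real.log 2)]

end Event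

section Centers

variable {m : ℕ}

/-- **The centres of a line.** -/
theorem exists_centers (D : ℕ) (i₁ : Fin m) : ∃ (n : ℕ) (T : Finset (List (Option (Fin m)))),
    1 ≤ n ∧ ∀ (R : MvPolynomial (Option (Fin m)) ℝ) (u d : Fin m → ℝ), R.totalDegree ≤ D →
      (∀ j, |d j| ≤ 1) → ∃ Cc : Finset ℝ, Cc.card ≤ n ∧
      ∀ (x₀ : Option (Fin m) → ℝ) (s₁ ρ₀ : ℝ), 0 < ρ₀ →
        (∀ o, |stp i₁ s₁ (fun j => u j + s₁ * d j) o - x₀ o| ≤ ρ₀) →
        MvPolynomial.eval x₀ (MvPolynomial.pderiv none R) ≠ 0 →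
        |MvPolynomial.eval x₀ R| ≤ ρ₀ * |MvPolynomial.eval x₀ (MvPolynomial.pderiv none R)| →
        ∃ L ∈ T, ∀ s₂ δ Λ : ℝ, 0 < δ → 0 ≤ Λ → |s₂ - s₁| ≤ Λ →
          (∀ s ∈ Cc, δ ≤ |s₁ - s|) → (∀ s ∈ Cc, δ ≤ |s₂ - s|) →
          D / δ * ((1 + Λ / δ) ^ (2 * D) * (8 * (m + 1) * ρ₀)) ≤ 1 / 2 →
          ∃ l : Fin m, MvPolynomial.eval (fun j => u j + s₂ * d j)
              (MvPolynomial.pderiv l (tfx i₁ s₂ (dl L R))) ≠ 0 ∧
            |MvPolynomial.eval (fun j => u j + s₂ * d j) (tfx i₁ s₂ (dl L R))| ≤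
              2 * m * ((1 + Λ / δ) ^ (2 * D) * (8 * (m + 1) * ρ₀)) *
                |MvPolynomial.eval (fun j => u j + s₂ * d j)
                  (MvPolynomial.pderiv l (tfx i₁ s₂ (dl L R)))| := by
  classical
  obtain ⟨T, hT⟩ := exists_types (Option (Fin m)) D
  refine ⟨T.card * (D + D) + 1, T.image Prod.fst, Nat.succ_pos _ |>.trans_le le_rfl, ?_⟩
  intro R u d hR hd
  have hnct : ∀ P : Polynomial ℝ, ∃ S : Finset ℝ, P.natDegree ≤ D → S.card ≤ D ∧
      ∀ (T t r κ : ℝ), 0 < r → 0 ≤ κ → (∀ s ∈ S, r ≤ |T - s|) →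
      (|t - T| ≤ κ * r → |P.eval t - P.eval T| ≤ ((1 + κ) ^ D - 1) * |P.eval T|) ∧
      |P.derivative.eval T| ≤ D / r * |P.eval T| := by
    intro P
    by_cases hP : P.natDegree ≤ D
    · obtain ⟨S, hS⟩ := Pool.KPO.nct P D hP
      exact ⟨S, fun _ => hS⟩
    · exact ⟨∅, fun h => absurd h hP⟩
  choose cen hcen using hnct
  have hdeg1 : ∀ L : List (Option (Fin m)), (lnp (stp i₁ 0 u) (stp i₁ 1 d) (dl L R)).natDegree ≤ D :=
    fun L => (lnp_deg _ _ _).trans ((td_dl L R D hR).trans (Nat.sub_le _ _))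
  have hdeg2 : ∀ (L : List (Option (Fin m))) (i : Option (Fin m)),
      (lnp (stp i₁ 0 u) (stp i₁ 1 d) (MvPolynomial.pderiv i (dl L R))).natDegree ≤ D :=
    fun L i => (lnp_deg _ _ _).trans
      (td_pd_le i _ D ((td_dl L R D hR).trans (Nat.sub_le _ _)))
  refine ⟨T.biUnion fun t => cen (lnp (stp i₁ 0 u) (stp i₁ 1 d) (dl t.1 R)) ∪
    cen (lnp (stp i₁ 0 u) (stp i₁ 1 d) (MvPolynomial.pderiv t.2 (dl t.1 R))), ?_, ?_⟩
  · refine (Finset.card_biUnion_le_card_mul _ _ (D + D) fun t _ => ?_).trans (Nat.le_succ _)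
    refine (Finset.card_union_le _ _).trans (Nat.add_le_add ?_ ?_)
    · exact (hcen _ (hdeg1 t.1)).1
    · exact (hcen _ (hdeg2 t.1 t.2)).1
  intro x₀ s₁ ρ₀ hρ hx h1 h2
  obtain ⟨L, i, hL, h3, h4⟩ := grid_step hR i₁ u d hρ hx h1 h2
  refine ⟨L, Finset.mem_image.2 ⟨(L, i), hT L i hL, rfl⟩, ?_⟩
  intro s₂ δ Λ hδ hΛ h12 hc1 hc2 hsm
  have hm : (0 : ℝ) ≤ m := Nat.cast_nonneg m
  have key := time_step (hcen _ (hdeg1 L)).2 (hcen _ (hdeg2 L i)).2 (s₁ := s₁) (s₂ := s₂) hδ hΛ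
    (by positivity : 0 ≤ 8 * (m + 1) * ρ₀) h12
    (fun s hs => hc1 s (Finset.mem_biUnion.2 ⟨(L, i), hT L i hL, Finset.mem_union_left _ hs⟩))
    (fun s hs => hc2 s (Finset.mem_biUnion.2 ⟨(L, i), hT L i hL, Finset.mem_union_left _ hs⟩))
    (fun s hs => hc2 s (Finset.mem_biUnion.2 ⟨(L, i), hT L i hL, Finset.mem_union_right _ hs⟩))
    h4 h3
  exact space_step (dl L R) i₁ u d hd i hδ (by positivity) hsm key.1 key.2.1 key.2.2

end Centers

end Pool.LBW
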