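import Pool.Agent.H42.PB.ClG
import Pool.Agent.H35.ZCL.Zoom
import Pool.Agent.H57.LBW.Time

/-!
# Positions of a second sample in the box of the first one
-/

set_option autoImplicit false

namespace Pool.LBW

open Finset Real
open Pool.Agent.H49.Ent Pool.Agent.H32.Dense Pool.STK Pool.KA Pool.KSAT Pool.K3 Pool.PB

/-- **Lemma A with an abstract count.** -/
theorem boxG {m J : ℕ} (P : ℕ) (F : Fam m J) {w y : ℕ} {S : Type} (z : F.Ω → S) {e s Lb : ℝ}
    (hwJ : w ≤ J) (he : F.Tm e) (hv : CH F.p z (fun ω => (F.X P ω, F.W ω)) ≤ s)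
    (hL : CH (prs F (w - y)) (fun v => F.X P v.2)
      (fun v => (z v.1, (F.T v.1, F.T v.2, F.Z v.1))) ≤ Lb) :
    CH (prs F (w - y)) (fun v => z v.1) (fun v => ((F.X P v.2, F.W v.2), F.T v.1)) ≤
      Lb - CH F.p (F.X P) (fun ω => (z ω, F.W ω)) + e + Real.log 5 + s := by
  obtain ⟨Q, hQdef⟩ : ∃ Q, Q = prs F (w - y) := ⟨_, rfl⟩
  have hQ : IsLaw Q := by rw [hQdef]; exact prs_law F (w - y)
  have h0 := hQ.nonneg
  rw [← hQdef] at hL ⊢
  obtain ⟨V, hV⟩ : ∃ V : F.Ω × F.Ω → ℕ × ℕ × F.ζ, V = fun v => (F.T v.1, F.T v.2, F.Z v.1) :=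
    ⟨_, rfl⟩
  have hpos : ∀ v, 0 < Q v → F.Z v.1 = F.Z v.2 := by
    intro v hv'
    rw [hQdef] at hv'
    exact (prs_pos hv').2.2.2.2.1
  have hL' : CH Q (fun v => F.X P v.2) (fun v => (z v.1, V v)) ≤ Lb := by rw [hV]; exact hL
  have hx : CH Q (fun v => F.X P v.2) V = CH Q (fun v => F.X P v.1) V := by
    have h1 := (prs_swap F (w - y)).CH (fun v => F.X P v.1) V
    rw [← hQdef] at h1
    rw [← h1]
    refine CH_congr h0 (fun _ _ _ _ h => (Prod.ext_iff.mp h).1)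
      (fun _ _ _ _ h => (Prod.ext_iff.mp h).1) ?_ ?_
    · intro v v' hv hv' h
      have a3 := hpos v hv
      have b3 := hpos v' hv'
      simp only [hV, Prod.mk.injEq, Prod.fst_swap, Prod.snd_swap] at h ⊢
      exact ⟨h.2.1, h.1, a3.symm.trans (h.2.2.trans b3)⟩
    · intro v v' hv hv' h
      have a3 := hpos v hv
      have b3 := hpos v' hv'
      simp only [hV, Prod.mk.injEq, Prod.fst_swap, Prod.snd_swap] at h ⊢
      exact ⟨h.2.1, h.1, a3.trans (h.2.2.trans b3.symm)⟩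
  have hla := Pool.KS6.la h0 (fun v : F.Ω × F.Ω => F.X P v.1) (fun v => F.X P v.2)
    (fun v => z v.1) V hx
  have a1 : CH Q (fun v => z v.1) (fun v => (F.X P v.1, V v)) ≤ s := by
    refine le_trans ?_ hv
    rw [← (prs_fst F (w - y)).CH z (fun ω => (F.X P ω, F.W ω)), ← hQdef]
    refine CH_mono_cond h0 fun v v' _ _ h => ?_
    simp only [hV, Prod.mk.injEq, Fam.W] at h ⊢
    tauto
  have a2 : CH F.p (F.X P) (fun ω => (z ω, F.W ω)) - (e + Real.log 5) ≤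
      CH Q (fun v => F.X P v.1) (fun v => (z v.1, V v)) := by
    have h1 := prs_time F (w := w - y) (by omega) he (F.X P) (fun ω => (z ω, F.W ω))
      (fun ω ω' _ _ h => by
        have h2 : F.T ω = F.T ω' := (Prod.ext_iff.mp (Prod.ext_iff.mp h).2).1
        unfold Fam.T1
        rw [h2])
    rw [← hQdef] at h1
    refine h1.trans ?_
    refine CH_mono_cond h0 fun v v' _ _ h => ?_
    simp only [hV, Prod.mk.injEq, Fam.W] at h ⊢
    tauto
  have a4 : CH Q (fun v => z v.1) (fun v => ((F.X P v.2, F.W v.2), F.T v.1)) =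
      CH Q (fun v => z v.1) (fun v => (F.X P v.2, V v)) := by
    refine CH_congr h0 (fun _ _ _ _ h => (Prod.ext_iff.mp h).1)
      (fun _ _ _ _ h => (Prod.ext_iff.mp h).1) ?_ ?_
    · intro v v' hv hv' h
      have a3 := hpos v hv
      have b3 := hpos v' hv'
      simp only [hV, Prod.mk.injEq, Fam.W] at h ⊢
      exact ⟨h.1.1, h.2, h.1.2.1, a3.trans (h.1.2.2.trans b3.symm)⟩
    · intro v v' hv hv' h
      have a3 := hpos v hv
      have b3 := hpos v' hv'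
      simp only [hV, Prod.mk.injEq, Fam.W] at h ⊢
      exact ⟨⟨h.1, h.2.2.1, a3.symm.trans (h.2.2.2.trans b3)⟩, h.2.1⟩
  rw [a4]
  linarith

section Pair

variable {m J : ℕ}

/-- The time of a sample, in units of the window of another one. -/
noncomputable def rtm (F : Fam m J) (w : ℕ) (a b : F.Ω) : ℝ :=
  ((F.T b : ℝ) - 2 ^ (J - w) * F.T1 w a) / 2 ^ (J - w)

theorem rtm_t (F : Fam m J) {w : ℕ} (hw : w ≤ J) (a b : F.Ω) :
    F.t b = (F.T1 w a : ℝ) / 2 ^ w + rtm F w a b * (2 ^ w)⁻¹ := by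
  unfold rtm Fam.t
  have e : (2 : ℝ) ^ J = 2 ^ w * 2 ^ (J - w) := by rw [← pow_add]; congr 1; omega
  have h1 : (2 : ℝ) ^ w ≠ 0 := by positivity
  have h2 : (2 : ℝ) ^ (J - w) ≠ 0 := by positivity
  rw [e]
  field_simp
  ring

theorem rtm_self (F : Fam m J) (w : ℕ) (a : F.Ω) : 0 ≤ rtm F w a a ∧ rtm F w a a < 1 := by
  unfold rtm Fam.T1
  have h0 : (0 : ℝ) < 2 ^ (J - w) := by positivity
  have h1 := Nat.div_add_mod (F.T a) (2 ^ (J - w))
  have h2 := Nat.mod_lt (F.T a) (show 0 < 2 ^ (J - w) by positivity)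
  have e1 : (F.T a : ℝ) = 2 ^ (J - w) * (F.T a / 2 ^ (J - w) : ℕ) +
      (F.T a % 2 ^ (J - w) : ℕ) := by exact_mod_cast h1.symm
  have e2 : ((F.T a % 2 ^ (J - w) : ℕ) : ℝ) < 2 ^ (J - w) := by exact_mod_cast h2
  have e3 : (0 : ℝ) ≤ ((F.T a % 2 ^ (J - w) : ℕ) : ℝ) := Nat.cast_nonneg _
  have e4 : (F.T a : ℝ) - 2 ^ (J - w) * (F.T a / 2 ^ (J - w) : ℕ) =
      (F.T a % 2 ^ (J - w) : ℕ) := by linarith
  rw [e4]
  constructor
  · positivity
  · rw [div_lt_one h0]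
    exact e2

/-- Two samples of one window of length `2 ^ (y - w)`. -/
theorem rtm_diff (F : Fam m J) {w y : ℕ} (hw : w ≤ J) (hy : y ≤ w) {a b : F.Ω}
    (h : F.T1 (w - y) a = F.T1 (w - y) b) : |rtm F w a b - rtm F w a a| ≤ 2 ^ y := by
  have h1 := T1_near F (w := w - y) h.symm
  have h0 : (0 : ℝ) < 2 ^ (J - w) := by positivity
  have e : rtm F w a b - rtm F w a a = ((F.T b : ℝ) - F.T a) / 2 ^ (J - w) := by
    unfold rtm
    ring
  rw [e, abs_div, abs_of_pos h0, div_le_iff₀ h0, ← pow_add]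
  have e2 : y + (J - w) = J - (w - y) := by omega
  rw [e2]
  exact h1

theorem rtm_abs (F : Fam m J) {w y : ℕ} (hw : w ≤ J) (hy : y ≤ w) {a b : F.Ω}
    (h : F.T1 (w - y) a = F.T1 (w - y) b) : |rtm F w a b| ≤ 2 ^ (y + 1) := by
  have h1 := rtm_diff F hw hy h
  have h2 := rtm_self F w a
  have h3 := abs_add_le (rtm F w a b - rtm F w a a) (rtm F w a a)
  rw [sub_add_cancel, abs_of_nonneg h2.1] at h3
  have h4 : (1 : ℝ) ≤ 2 ^ y := one_le_pow₀ (by norm_num)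
  rw [pow_succ]
  linarith

variable {κ : Type}

/-- The position of a sample in the box of another one. -/
noncomputable def rps (F : Fam m J) (w J' : ℕ) (h : w + J' ≤ J) (C : Crd m κ) (g : F.Ω → κ)
    (a b : F.Ω) (j : Fin m) : ℝ :=
  (F.zm w J' h C g).u a j + rtm F w a b * (F.zm w J' h C g).d a j

theorem zm_u_mem (F : Fam m J) {w J' : ℕ} (h : w + J' ≤ J) (C : Crd m κ) (g : F.Ω → κ) (a : F.Ω)
    (j : Fin m) : |(F.zm w J' h C g).u a j - (F.box w C g).u a j| ≤ 1 / 2 ^ J' ∧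
      0 ≤ (F.zm w J' h C g).u a j ∧ (F.zm w J' h C g).u a j ≤ 1 ∧
      |(F.zm w J' h C g).d a j - (F.box w C g).d a j| ≤ 1 / 2 ^ J' ∧
      0 ≤ (F.zm w J' h C g).d a j ∧ (F.zm w J' h C g).d a j ≤ 1 := by
  have p0 : (0 : ℝ) < 2 ^ J' := by positivity
  have key : ∀ r : ℝ, 0 ≤ r → r < 1 → |(⌊(2 : ℝ) ^ J' * r⌋ : ℝ) / 2 ^ J' - r| ≤ 1 / 2 ^ J' ∧
      0 ≤ (⌊(2 : ℝ) ^ J' * r⌋ : ℝ) / 2 ^ J' ∧ (⌊(2 : ℝ) ^ J' * r⌋ : ℝ) / 2 ^ J' ≤ 1 := by
    intro r h0 h1
    have a1 := Int.floor_le ((2 : ℝ) ^ J' * r)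
    have a2 := Int.lt_floor_add_one ((2 : ℝ) ^ J' * r)
    have a3 : (0 : ℤ) ≤ ⌊(2 : ℝ) ^ J' * r⌋ := Int.floor_nonneg.2 (by positivity)
    have a4 : (0 : ℝ) ≤ ⌊(2 : ℝ) ^ J' * r⌋ := by exact_mod_cast a3
    refine ⟨?_, by positivity, ?_⟩
    · have e : (⌊(2 : ℝ) ^ J' * r⌋ : ℝ) / 2 ^ J' - r =
          ((⌊(2 : ℝ) ^ J' * r⌋ : ℝ) - 2 ^ J' * r) / 2 ^ J' := by field_simp
      rw [e, abs_div, abs_of_pos p0]
      refine div_le_div_of_nonneg_right ?_ p0.le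
      rw [abs_le]
      constructor <;> linarith
    · rw [div_le_one p0]
      nlinarith
  have h1 := Box.u_mem F w C g a j
  have h2 := Box.d_mem F w C g a j
  obtain ⟨b1, b2, b3⟩ := key _ h1.1 h1.2
  obtain ⟨c1, c2, c3⟩ := key _ h2.1 h2.2
  exact ⟨b1, b2, b3, c1, c2, c3⟩

theorem rps_le (F : Fam m J) {w J' y : ℕ} (h : w + J' ≤ J) (hy : y ≤ w) (C : Crd m κ)
    (g : F.Ω → κ) {a b : F.Ω} (hab : F.T1 (w - y) a = F.T1 (w - y) b) (j : Fin m) :
    |rps F w J' h C g a b j| ≤ 2 ^ (y + 2) := by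
  obtain ⟨-, h1, h2, -, h3, h4⟩ := zm_u_mem F h C g a j
  have h5 := rtm_abs F (by omega : w ≤ J) hy hab
  unfold rps
  refine (abs_add_le _ _).trans ?_
  rw [abs_mul, abs_of_nonneg h1, abs_of_nonneg h3]
  have h6 : |rtm F w a b| * (F.zm w J' h C g).d a j ≤ 2 ^ (y + 1) * 1 :=
    mul_le_mul h5 h4 h3 (by positivity)
  have h7 : (1 : ℝ) ≤ 2 ^ (y + 1) := one_le_pow₀ (by norm_num)
  have h8 : (2 : ℝ) ^ (y + 2) = 2 * 2 ^ (y + 1) := by rw [pow_succ]; ring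
  rw [h8]
  linarith

/-- The true position in the coordinates of the box. -/
theorem rps_dev (F : Fam m J) {w J' y : ℕ} (h : w + J' ≤ J) (hy : y ≤ w) (C : Crd m κ)
    (g : F.Ω → κ) {a b : F.Ω} (hab : F.T1 (w - y) a = F.T1 (w - y) b) (hu : F.u a = F.u b)
    (hd : F.d a = F.d b) (j : Fin m) :
    |2 ^ w * C.L (g a) (F.x b) j - (F.bcl w C g a j + rtm F w a b * F.bvl C g a j +
      rps F w J' h C g a b j)| ≤ (1 + 2 ^ (y + 1)) / 2 ^ J' := by
  have h1 : F.x b = fun j => F.x1 w a j + (rtm F w a b * (2 ^ w)⁻¹) * F.d a j := by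
    funext j
    unfold Fam.x Fam.x1
    rw [rtm_t F (by omega : w ≤ J) a b, hu, hd]
    ring
  have h3 : (2 : ℝ) ^ w ≠ 0 := by positivity
  have h4 : 2 ^ w * C.L (g a) (F.x b) j = F.bcl w C g a j + (F.box w C g).u a j +
      rtm F w a b * (F.bvl C g a j + (F.box w C g).d a j) := by
    rw [h1, C.lin, mul_add, Box.bcl_eq, Box.bvl_eq F w]
    field_simp
  rw [h4]
  unfold rps
  obtain ⟨b1, -, -, b2, -, -⟩ := zm_u_mem F h C g a j
  have h5 := rtm_abs F (by omega : w ≤ J) hy hab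
  have e : F.bcl w C g a j + (F.box w C g).u a j + rtm F w a b * (F.bvl C g a j +
      (F.box w C g).d a j) - (F.bcl w C g a j + rtm F w a b * F.bvl C g a j +
      ((F.zm w J' h C g).u a j + rtm F w a b * (F.zm w J' h C g).d a j)) =
      -((F.zm w J' h C g).u a j - (F.box w C g).u a j) +
      -(rtm F w a b * ((F.zm w J' h C g).d a j - (F.box w C g).d a j)) := by ring
  rw [e]
  refine (abs_add_le _ _).trans ?_
  rw [abs_neg, abs_neg, abs_mul]
  have h6 : |rtm F w a b| * |(F.zm w J' h C g).d a j - (F.box w C g).d a j| ≤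
      2 ^ (y + 1) * (1 / 2 ^ J') := mul_le_mul h5 b2 (abs_nonneg _) (by positivity)
  have e2 : (1 + (2 : ℝ) ^ (y + 1)) / 2 ^ J' = 1 / 2 ^ J' + 2 ^ (y + 1) * (1 / 2 ^ J') := by ring
  rw [e2]
  linarith

/-- The line and the grid point of a sample. -/
theorem grid_near (F : Fam m J) {w J' P₁ P : ℕ} (h : w + J' ≤ J) (hP1 : P ≤ P₁) (hP2 : P₁ ≤ J')
    (C : Crd m κ) (g : F.Ω → κ) (i₁ : Fin m) (a : F.Ω) (o : Option (Fin m)) :
    |stp i₁ (rtm F w a a) (fun j => (F.zm w J' h C g).u a j + rtm F w a a *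
      (F.zm w J' h C g).d a j) o - txg (F.zm w J' h C g) i₁ P₁ a o| ≤ 2 / 2 ^ P := by
  have p1 : (0 : ℝ) < 2 ^ P₁ := by positivity
  have q1 : (1 : ℝ) / 2 ^ P₁ ≤ 1 / 2 ^ P :=
    one_div_le_one_div_of_le (by positivity) (pow_le_pow_right₀ (by norm_num) hP1)
  have q2 : (1 : ℝ) / 2 ^ J' ≤ 1 / 2 ^ P :=
    one_div_le_one_div_of_le (by positivity) (pow_le_pow_right₀ (by norm_num) (hP1.trans hP2))
  -- the time
  have hbt : (F.box w C g).t a = rtm F w a a := by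
    have h1 : (F.box w C g).t a = ((F.T a % 2 ^ (J - w) : ℕ) : ℝ) / 2 ^ (J - w) := rfl
    rw [h1]
    unfold rtm Fam.T1
    have h2 := Nat.div_add_mod (F.T a) (2 ^ (J - w))
    have e1 : (F.T a : ℝ) = 2 ^ (J - w) * (F.T a / 2 ^ (J - w) : ℕ) +
        (F.T a % 2 ^ (J - w) : ℕ) := by exact_mod_cast h2.symm
    congr 1
    linarith
  have hzt : (F.zm w J' h C g).t a =
    (((F.box w C g).T a / 2 ^ (J - w - J') : ℕ) : ℝ) / 2 ^ J' := rfl
  have htt : 0 ≤ rtm F w a a - (F.zm w J' h C g).t a ∧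
      rtm F w a a - (F.zm w J' h C g).t a ≤ 1 / 2 ^ J' := by
    have h2 := T1_real (F.box w C g) (g := J') (by omega) a
    have h3 : ((F.box w C g).T1 J' a : ℝ) =
      (((F.box w C g).T a / 2 ^ (J - w - J') : ℕ) : ℝ) := rfl
    rw [h3, hbt] at h2
    have p0 : (0 : ℝ) < 2 ^ J' := by positivity
    have h4 : (((F.box w C g).T a / 2 ^ (J - w - J') : ℕ) : ℝ) =
        (F.zm w J' h C g).t a * 2 ^ J' := by
      rw [hzt]
      field_simp
    rw [h4] at h2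
    constructor
    · have : 0 ≤ 2 ^ J' * (rtm F w a a - (F.zm w J' h C g).t a) := by linarith [h2.1]
      exact nonneg_of_mul_nonneg_right this p0
    · rw [le_div_iff₀ p0]
      linarith [h2.2]
  have e2 : (2 : ℝ) / 2 ^ P = 1 / 2 ^ P + 1 / 2 ^ P := by ring
  -- positions
  have hpos : ∀ j, |((F.zm w J' h C g).u a j + rtm F w a a * (F.zm w J' h C g).d a j) -
      ((F.zm w J' h C g).X P₁ a j : ℝ) / 2 ^ P₁| ≤ 2 / 2 ^ P := by
    intro j
    obtain ⟨-, -, -, -, h3, h4⟩ := zm_u_mem F h C g a j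
    have h5 : ((F.zm w J' h C g).X P₁ a j : ℝ) = ⌊(2 : ℝ) ^ P₁ * (F.zm w J' h C g).x a j⌋ := rfl
    have h6 := Int.floor_le ((2 : ℝ) ^ P₁ * (F.zm w J' h C g).x a j)
    have h7 := Int.lt_floor_add_one ((2 : ℝ) ^ P₁ * (F.zm w J' h C g).x a j)
    have h8 : (F.zm w J' h C g).x a j = (F.zm w J' h C g).u a j +
      (F.zm w J' h C g).t a * (F.zm w J' h C g).d a j := rfl
    have h9 : |(F.zm w J' h C g).x a j - ((F.zm w J' h C g).X P₁ a j : ℝ) / 2 ^ P₁| ≤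
        1 / 2 ^ P₁ := by
      rw [h5]
      have e : (F.zm w J' h C g).x a j - (⌊(2 : ℝ) ^ P₁ * (F.zm w J' h C g).x a j⌋ : ℝ) / 2 ^ P₁ =
          (2 ^ P₁ * (F.zm w J' h C g).x a j - ⌊(2 : ℝ) ^ P₁ * (F.zm w J' h C g).x a j⌋) / 2 ^ P₁ := by
        field_simp
      rw [e, abs_div, abs_of_pos p1]
      refine div_le_div_of_nonneg_right ?_ p1.le
      rw [abs_le]
      constructor <;> linarith
    have h10 : |(rtm F w a a - (F.zm w J' h C g).t a) * (F.zm w J' h C g).d a j| ≤ 1 / 2 ^ J' := by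
      rw [abs_mul, abs_of_nonneg htt.1, abs_of_nonneg h3]
      calc _ ≤ 1 / 2 ^ J' * 1 := mul_le_mul htt.2 h4 h3 (by positivity)
        _ = _ := mul_one _
    have e : ((F.zm w J' h C g).u a j + rtm F w a a * (F.zm w J' h C g).d a j) -
        ((F.zm w J' h C g).X P₁ a j : ℝ) / 2 ^ P₁ = (rtm F w a a - (F.zm w J' h C g).t a) *
        (F.zm w J' h C g).d a j + ((F.zm w J' h C g).x a j -
        ((F.zm w J' h C g).X P₁ a j : ℝ) / 2 ^ P₁) := by
      rw [h8]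
      ring
    rw [e, e2]
    exact (abs_add_le _ _).trans (add_le_add (h10.trans q2) (h9.trans q1))
  cases o with
  | none => exact hpos i₁
  | some j =>
    simp only [stp, txg, Option.elim]
    by_cases hj : j = i₁
    · rw [if_pos hj, if_pos hj]
      have h2 := T1_real (F.zm w J' h C g) (g := P₁) hP2 a
      have h3 : |(F.zm w J' h C g).t a - ((F.zm w J' h C g).T1 P₁ a : ℝ) / 2 ^ P₁| ≤ 1 / 2 ^ P₁ := by
        have e : (F.zm w J' h C g).t a - ((F.zm w J' h C g).T1 P₁ a : ℝ) / 2 ^ P₁ =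
            (2 ^ P₁ * (F.zm w J' h C g).t a - (F.zm w J' h C g).T1 P₁ a) / 2 ^ P₁ := by
          field_simp
        rw [e, abs_div, abs_of_pos p1]
        refine div_le_div_of_nonneg_right ?_ p1.le
        rw [abs_le]
        constructor <;> linarith [h2.1, h2.2]
      have h4 : |rtm F w a a - (F.zm w J' h C g).t a| ≤ 1 / 2 ^ J' := by
        rw [abs_of_nonneg htt.1]
        exact htt.2
      rw [e2]
      exact (abs_sub_le _ ((F.zm w J' h C g).t a) _).trans (add_le_add (h4.trans q2) (h3.trans q1))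
    · rw [if_neg hj, if_neg hj]
      exact hpos j

end Pair

end Pool.LBW
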